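import Mathlib
import Pool.Agent.V7H87.KD.StDefs
import Pool.Agent.Helper819.DC.L1A1
import Pool.Agent.Helper819.DC.L1A2
import Pool.Agent.Helper819.DC.N1D
import Pool.Agent.Helper819.DC.ENDO
import Pool.Agent.Helper819.DC.CSEL
import Pool.Agent.Helper819.DC.COMP2

/-!
# Formal arcs through ideals of infinite codimension in a ring of formal power series
-/

set_option autoImplicit false

open IsLocalRing

namespace Pool.Agent.V7H43.KD

open Pool.Agent.Helper819.DC Pool.Agent.V7H87.KD

variable {n : ℕ}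

theorem norm1 (D : Type) [CommRing D] [IsDomain D] [Algebra ℂ D]
    (i : PowerSeries ℂ →ₐ[ℂ] D) (hi : Function.Injective i) (hf : i.toRingHom.Finite) :
    ∃ j : D →ₐ[ℂ] PowerSeries ℂ, Function.Injective j ∧ j.toRingHom.Finite ∧
      ∃ d : D, d ≠ 0 ∧ ∀ w : PowerSeries ℂ, ∃ a : D, j a = j d * w :=
  N1D.norm_one_dim (fun E L _ _ _ _ _ _ _ _ => L1A2.closure_iso (E := E) (L1A1.integral_or_inv (E := E)))
    ENDO.endo_finite i hi hf

/-- a quotient of finite dimension is a quotient by an ideal which contains a power of the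
maximal ideal -/
theorem not_finiteDimensional (J : Ideal (MvPowerSeries (Fin n) ℂ))
    (hJ : ∀ L : ℕ, ¬ (maximalIdeal (MvPowerSeries (Fin n) ℂ)) ^ L ≤ J) :
    ¬ FiniteDimensional ℂ (MvPowerSeries (Fin n) ℂ ⧸ J) := by
  intro hfd
  have hart : IsArtinianRing (MvPowerSeries (Fin n) ℂ ⧸ J) :=
    isArtinian_of_tower ℂ inferInstance
  obtain ⟨L, hL⟩ := CSEL.pow_le_of_primes J (by
    intro P hP hJP
    have hP' : (P.map (Ideal.Quotient.mk J)).IsPrime :=
      Ideal.map_isPrime_of_surjective Ideal.Quotient.mk_surjective (by rwa [Ideal.mk_ker])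
    have hmax : (P.map (Ideal.Quotient.mk J)).IsMaximal := IsArtinianRing.isMaximal_of_isPrime _
    have h1 : (Ideal.comap (Ideal.Quotient.mk J) (P.map (Ideal.Quotient.mk J))).IsMaximal :=
      Ideal.comap_isMaximal_of_surjective _ Ideal.Quotient.mk_surjective
    rw [Ideal.comap_map_of_surjective _ Ideal.Quotient.mk_surjective] at h1
    have h2 : P ⊔ Ideal.comap (Ideal.Quotient.mk J) ⊥ = P := by
      rw [sup_eq_left]
      intro x hx
      rw [Ideal.mem_comap, Ideal.mem_bot, Ideal.Quotient.eq_zero_iff_mem] at hx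
      exact hJP hx
    rw [h2] at h1
    exact IsLocalRing.eq_maximalIdeal h1)
  exact hJ L hL

/-- an algebra homomorphism to a power series ring is local -/
theorem constantCoeff_hom (β : MvPowerSeries (Fin n) ℂ →ₐ[ℂ] PowerSeries ℂ) (j : Fin n) :
    PowerSeries.constantCoeff (β (MvPowerSeries.X j)) = 0 := by
  by_contra hc
  set c := PowerSeries.constantCoeff (β (MvPowerSeries.X j)) with hcdef
  have h1 : IsUnit (MvPowerSeries.X j - algebraMap ℂ (MvPowerSeries (Fin n) ℂ) c) := by
    rw [MvPowerSeries.isUnit_iff_constantCoeff, isUnit_iff_ne_zero, map_sub,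
      MvPowerSeries.constantCoeff_X, MvPowerSeries.algebraMap_apply]
    simpa using hc
  have h2 := h1.map β
  rw [map_sub, AlgHom.commutes, PowerSeries.isUnit_iff_constantCoeff, map_sub, ← hcdef,
    PowerSeries.algebraMap_apply] at h2
  simp at h2

/-- the part of a power series outside of a box is in the ideal generated by the corresponding
powers of the variables -/
theorem sub_trunc (a : ℕ) (f : MvPowerSeries (Fin n) ℂ)
    (hf : ∀ α ∈ box n a, MvPowerSeries.coeff (Finsupp.equivFunOnFinite.symm α) f = 0) :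
    ∃ h : Fin n → MvPowerSeries (Fin n) ℂ, f = ∑ j, MvPowerSeries.X j ^ (a + 1) * h j := by
  classical
  have hsel : ∀ m : Fin n →₀ ℕ, ∃ o : Option (Fin n),
      (MvPowerSeries.coeff m f ≠ 0 → ∃ i, o = some i) ∧ (∀ i, o = some i → a + 1 ≤ m i) := by
    intro m
    by_cases hm : MvPowerSeries.coeff m f = 0
    · exact ⟨none, fun h => absurd hm h, fun i h => by simp at h⟩
    · have : ∃ i, a + 1 ≤ m i := by
        by_contra hcon
        push Not at hcon
        refine hm ?_
        have h1 := hf (m : Fin n → ℕ) (by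
          rw [box, Fintype.mem_piFinset]
          intro i
          rw [Finset.mem_range]
          exact hcon i)
        convert h1
        ext i
        rfl
      obtain ⟨i, hi⟩ := this
      refine ⟨some i, fun _ => ⟨i, rfl⟩, fun j hj => ?_⟩
      rw [Option.some_inj] at hj
      rw [← hj]; exact hi
  choose sel h1 h2 using hsel
  let g : Fin n → MvPowerSeries (Fin n) ℂ := fun i m =>
    if sel m = some i then MvPowerSeries.coeff m f else 0
  have hg : ∀ i m, MvPowerSeries.coeff m (g i) =
      if sel m = some i then MvPowerSeries.coeff m f else 0 := fun i m => rfl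
  have hsum : f = ∑ i, g i := by
    ext m
    rw [map_sum]
    simp only [hg]
    by_cases hm : MvPowerSeries.coeff m f = 0
    · rw [hm]
      simp
    · obtain ⟨i, hi⟩ := h1 m hm
      rw [hi]
      simp
  have hdvd : ∀ i, MvPowerSeries.X i ^ (a + 1) ∣ g i := by
    intro i
    rw [MvPowerSeries.X_pow_dvd_iff]
    intro m hm
    rw [hg, if_neg]
    intro h
    exact absurd (h2 m i h) (by omega)
  choose h hh using hdvd
  refine ⟨h, ?_⟩
  rw [hsum]
  exact Finset.sum_congr rfl fun i _ => hh i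

theorem coeff_X_pow_mul_zero (φ ψ : PowerSeries ℂ) (a : ℕ) (hφ : PowerSeries.constantCoeff φ = 0) :
    PowerSeries.coeff a (φ ^ (a + 1) * ψ) = 0 := by
  obtain ⟨χ, rfl⟩ := PowerSeries.X_dvd_iff.2 hφ
  rw [mul_pow, mul_assoc]
  exact PowerSeries.coeff_of_lt_order a (by
    refine lt_of_lt_of_le ?_ (PowerSeries.le_order_mul _ _)
    rw [PowerSeries.order_X_pow]
    refine lt_of_lt_of_le ?_ le_self_add
    exact_mod_cast Nat.lt_succ_self a)

/-- the coefficients of the image of a power series under an algebra homomorphism -/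
theorem coeff_hom (β : MvPowerSeries (Fin n) ℂ →ₐ[ℂ] PowerSeries ℂ) (f : MvPowerSeries (Fin n) ℂ)
    (a : ℕ) :
    PowerSeries.coeff a (β f) = ∑ α ∈ box n a,
      MvPowerSeries.coeff (Finsupp.equivFunOnFinite.symm α) f *
        PowerSeries.coeff a (mpow (fun j => β (MvPowerSeries.X j)) α) := by
  classical
  set P : MvPowerSeries (Fin n) ℂ := ∑ α ∈ box n a,
    MvPowerSeries.coeff (Finsupp.equivFunOnFinite.symm α) f • ∏ j, MvPowerSeries.X j ^ α j with hP
  have hmon : ∀ α : Fin n → ℕ, (∏ j, (MvPowerSeries.X j : MvPowerSeries (Fin n) ℂ) ^ α j) =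
      MvPowerSeries.monomial (Finsupp.equivFunOnFinite.symm α) (1 : ℂ) := by
    intro α
    rw [MvPowerSeries.monomial_eq', MvPowerSeries.C.map_one, one_mul]
    rw [Finsupp.prod_fintype _ _ (fun i => pow_zero _)]
    rfl
  have h1 : ∀ α ∈ box n a, MvPowerSeries.coeff (Finsupp.equivFunOnFinite.symm α) (f - P) = 0 := by
    intro α hα
    rw [map_sub, hP, map_sum, sub_eq_zero, Finset.sum_eq_single α]
    · rw [map_smul, hmon, MvPowerSeries.coeff_monomial_same, smul_eq_mul, mul_one]
    · intro β' _ hne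
      rw [map_smul, hmon, MvPowerSeries.coeff_monomial_ne, smul_zero]
      intro h
      exact hne (Finsupp.equivFunOnFinite.symm.injective h).symm
    · intro h
      exact absurd hα h
  obtain ⟨h, hh⟩ := sub_trunc a (f - P) h1
  have h2 : PowerSeries.coeff a (β (f - P)) = 0 := by
    rw [hh, map_sum, map_sum]
    refine Finset.sum_eq_zero fun j _ => ?_
    rw [map_mul, map_pow]
    exact coeff_X_pow_mul_zero _ _ a (constantCoeff_hom β j)
  have h3 : β f = β (f - P) + β P := by rw [← map_add, sub_add_cancel]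
  rw [h3, map_add, h2, zero_add, hP, map_sum, map_sum]
  refine Finset.sum_congr rfl fun α _ => ?_
  rw [map_smul, map_smul, smul_eq_mul, map_prod]
  simp only [map_pow]
  rfl

/-- ARC: an ideal of infinite codimension in the ring of formal power series vanishes, to any order,
on formal arcs of bounded order. -/
theorem arcs {n : ℕ} (J : Ideal (MvPowerSeries (Fin n) ℂ))
    (hJ : ∀ L : ℕ, ¬ (IsLocalRing.maximalIdeal (MvPowerSeries (Fin n) ℂ)) ^ L ≤ J) :
    ∃ e : ℕ, ∀ M : ℕ, ∃ γ : Fin n → PowerSeries ℂ,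
      (∀ j, PowerSeries.constantCoeff (γ j) = 0) ∧
      (∃ j, ∃ i ≤ e, PowerSeries.coeff i (γ j) ≠ 0) ∧
      ∀ f ∈ J, ∀ a < M, ∑ α ∈ box n a,
        MvPowerSeries.coeff (Finsupp.equivFunOnFinite.symm α) f * PowerSeries.coeff a (mpow γ α) = 0 := by
  have hcomp : IsAdicComplete (maximalIdeal (MvPowerSeries (Fin n) ℂ)) (MvPowerSeries (Fin n) ℂ) :=
    COMP2.complete_mvPowerSeries
  obtain ⟨β, hβ1, hβ2⟩ := CSEL.curve_selection (K := ℂ) norm1 (O := MvPowerSeries (Fin n) ℂ)
    COMP2.residue_mv J (not_finiteDimensional J hJ)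
  have h1 : ∃ j, β (MvPowerSeries.X j) ≠ 0 := by
    by_contra hcon
    push Not at hcon
    apply hβ2
    rw [COMP2.max_eq_span_aux, Ideal.span_le]
    rintro _ ⟨j, rfl⟩
    exact hcon j
  obtain ⟨j, hj⟩ := h1
  refine ⟨(β (MvPowerSeries.X j)).order.toNat, fun M => ⟨fun j => β (MvPowerSeries.X j),
    fun j => constantCoeff_hom β j, ⟨j, _, le_rfl, PowerSeries.coeff_order hj⟩, ?_⟩⟩
  intro f hf a _
  rw [← coeff_hom]
  have : β f = 0 := hβ1 hf
  rw [this, map_zero]

end Pool.Agent.V7H43.KD
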