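import Mathlib
import Pool.Agent.V7H87.KD.StDefs
import Pool.Agent.V7H43.KD.Arc

/-!
# The coefficient functionals of a formal curve, and their orthonormalisation
-/

set_option autoImplicit false

open Filter Topology InnerProductSpace

namespace Pool.Agent.V7H43.KD

open Pool.Agent.V7H87.KD

variable {n : ℕ}

/-- the functional `f ↦ ` coefficient of `s^a` in `f(γ(s))`, by its values on the monomials -/
noncomputable def lam (γ : Fin n → PowerSeries ℂ) (a : ℕ) (α : Fin n → ℕ) : ℂ :=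
  PowerSeries.coeff a (mpow γ α)

theorem box_mono {a b : ℕ} (h : a ≤ b) : box n a ⊆ box n b := by
  intro α hα
  rw [box, Fintype.mem_piFinset] at hα ⊢
  intro j
  have := hα j
  rw [Finset.mem_range] at this ⊢
  omega

theorem lam_box (γ : Fin n → PowerSeries ℂ) (h0 : ∀ j, PowerSeries.constantCoeff (γ j) = 0) (a : ℕ)
    (α : Fin n → ℕ) (hα : α ∉ box n a) : lam γ a α = 0 := by
  rw [box, Fintype.mem_piFinset] at hα
  push Not at hα
  obtain ⟨j, hj⟩ := hα
  rw [Finset.mem_range, not_lt] at hj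
  rw [lam, mpow, ← Finset.mul_prod_erase _ _ (Finset.mem_univ j)]
  obtain ⟨k, hk⟩ := Nat.exists_eq_add_of_le hj
  rw [hk, pow_add, mul_assoc]
  exact coeff_X_pow_mul_zero _ _ a (h0 j)

theorem mpow_add_single (γ : Fin n → PowerSeries ℂ) (j : Fin n) (α : Fin n → ℕ) :
    mpow γ (α + Pi.single j 1) = γ j * mpow γ α := by
  classical
  rw [mpow, mpow, ← Finset.mul_prod_erase _ _ (Finset.mem_univ j),
    ← Finset.mul_prod_erase (a := j) _ _ (Finset.mem_univ j)]
  rw [Pi.add_apply, Pi.single_eq_same, pow_succ]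
  have : ∏ x ∈ Finset.univ.erase j, γ x ^ ((α + Pi.single j 1 : Fin n → ℕ) x) =
      ∏ x ∈ Finset.univ.erase j, γ x ^ α x := by
    refine Finset.prod_congr rfl fun x hx => ?_
    rw [Pi.add_apply, Pi.single_eq_of_ne (Finset.ne_of_mem_erase hx), add_zero]
  rw [this]
  ring

theorem mpow_single (γ : Fin n → PowerSeries ℂ) (j : Fin n) (a : ℕ) :
    mpow γ (Pi.single j a) = γ j ^ a := by
  classical
  rw [mpow, Finset.prod_eq_single j]
  · rw [Pi.single_eq_same]
  · intro b _ hb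
    rw [Pi.single_eq_of_ne hb, pow_zero]
  · intro h
    exact absurd (Finset.mem_univ j) h

theorem lam_shift (γ : Fin n → PowerSeries ℂ) (a : ℕ) (j : Fin n) (α : Fin n → ℕ) :
    lam γ a (α + Pi.single j 1) =
      ∑ p ∈ Finset.HasAntidiagonal.antidiagonal a, PowerSeries.coeff p.1 (γ j) * lam γ p.2 α := by
  rw [lam, mpow_add_single, PowerSeries.coeff_mul]
  rfl

theorem lam_single (γ : Fin n → PowerSeries ℂ) (h0 : ∀ j, PowerSeries.constantCoeff (γ j) = 0)
    (b a : ℕ) (j : Fin n) (h : b ≤ a) :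
    lam γ b (Pi.single j a) = if b = a then PowerSeries.coeff 1 (γ j) ^ a else 0 := by
  rw [lam, mpow_single]
  obtain ⟨χ, hχ⟩ := PowerSeries.X_dvd_iff.2 (h0 j)
  rw [hχ, mul_pow]
  split_ifs with hab
  · subst hab
    have h1 : PowerSeries.coeff 1 (PowerSeries.X * χ) = PowerSeries.constantCoeff χ := by
      have := PowerSeries.coeff_succ_X_mul 0 χ
      simp
    rw [h1]
    have h2 := PowerSeries.coeff_X_pow_mul (χ ^ b) b 0
    rw [zero_add] at h2
    rw [h2, PowerSeries.coeff_zero_eq_constantCoeff_apply, map_pow]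
  · have h3 : b < a := lt_of_le_of_ne h hab
    exact PowerSeries.coeff_of_lt_order b (by
      refine lt_of_lt_of_le ?_ (PowerSeries.le_order_mul _ _)
      rw [PowerSeries.order_X_pow]
      refine lt_of_lt_of_le ?_ le_self_add
      exact_mod_cast h3)

/-- the Hilbert space `ℓ²` on the multi-indices -/
noncomputable abbrev HS (n : ℕ) := lp (fun _ : Fin n → ℕ => ℂ) 2

noncomputable def toH (N : ℕ) (u : (Fin n → ℕ) → ℂ) : HS n :=
  ∑ α ∈ box n N, lp.single 2 α (u α)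

theorem toH_apply (N : ℕ) (u : (Fin n → ℕ) → ℂ) (α : Fin n → ℕ) :
    (toH N u : (Fin n → ℕ) → ℂ) α = if α ∈ box n N then u α else 0 := by
  classical
  rw [toH, lp.coeFn_sum, Finset.sum_apply]
  simp only [lp.coeFn_single]
  by_cases h : α ∈ box n N
  · rw [if_pos h, Finset.sum_eq_single α]
    · rw [Pi.single_eq_same]
    · intro b _ hb
      rw [Pi.single_eq_of_ne hb.symm]
    · intro h'
      exact absurd h h'
  · rw [if_neg h]
    refine Finset.sum_eq_zero fun b hb => ?_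
    rw [Pi.single_eq_of_ne]
    rintro rfl
    exact h hb

/-- the functionals as elements of the Hilbert space -/
noncomputable def lamH (γ : Fin n → PowerSeries ℂ) (a : ℕ) : HS n := toH a (lam γ a)

section one

variable (γ : Fin n → PowerSeries ℂ) (h0 : ∀ j, PowerSeries.constantCoeff (γ j) = 0)

include h0 in
theorem lamH_apply (a : ℕ) (α : Fin n → ℕ) : (lamH γ a : (Fin n → ℕ) → ℂ) α = lam γ a α := by
  rw [lamH, toH_apply]
  split_ifs with h
  · rfl
  · exact (lam_box γ h0 a α h).symm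

/-- Gram-Schmidt -/
noncomputable def gs (a : ℕ) : HS n := gramSchmidt ℂ (lamH γ) a

/-- normalised Gram-Schmidt -/
noncomputable def en (a : ℕ) : HS n := ((‖gs γ a‖ : ℝ) : ℂ)⁻¹ • gs γ a

theorem gs_mem (a : ℕ) : gs γ a ∈ Submodule.span ℂ (lamH γ '' Set.Iic a) :=
  gramSchmidt_mem_span ℂ (lamH γ) (le_refl a)

theorem en_mem (a : ℕ) : en γ a ∈ Submodule.span ℂ (lamH γ '' Set.Iic a) :=
  Submodule.smul_mem _ _ (gs_mem γ a)

/-- a linear condition on the coordinates which holds for the functionals holds on their span -/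
theorem span_coord (a : ℕ) (α : Fin n → ℕ) (h : ∀ b ≤ a, (lamH γ b : (Fin n → ℕ) → ℂ) α = 0) (u : HS n)
    (hu : u ∈ Submodule.span ℂ (lamH γ '' Set.Iic a)) : (u : (Fin n → ℕ) → ℂ) α = 0 := by
  induction hu using Submodule.span_induction with
  | mem x hx =>
    obtain ⟨b, hb, rfl⟩ := hx
    exact h b hb
  | zero => rw [lp.coeFn_zero]; rfl
  | add x y _ _ hx hy => rw [lp.coeFn_add, Pi.add_apply, hx, hy, add_zero]
  | smul c x _ hx => rw [lp.coeFn_smul, Pi.smul_apply, hx, smul_zero]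

include h0 in
theorem gs_box (a : ℕ) (α : Fin n → ℕ) (hα : α ∉ box n a) : (gs γ a : (Fin n → ℕ) → ℂ) α = 0 :=
  span_coord γ a α (fun b hb => by
    rw [lamH_apply γ h0]
    exact lam_box γ h0 b α fun h => hα (box_mono hb h)) _ (gs_mem γ a)

include h0 in
theorem en_box (a : ℕ) (α : Fin n → ℕ) (hα : α ∉ box n a) : (en γ a : (Fin n → ℕ) → ℂ) α = 0 := by
  rw [en, lp.coeFn_smul, Pi.smul_apply, gs_box γ h0 a α hα, smul_zero]

theorem gs_rec (a : ℕ) : gs γ a = lamH γ a - ∑ i ∈ Finset.Iio a,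
      (⟪gs γ i, lamH γ a⟫_ℂ / (‖gs γ i‖ : ℂ) ^ 2) • gs γ i :=
  eq_sub_of_add_eq (gramSchmidt_def'' ℂ (lamH γ) a).symm

include h0 in
theorem gs_diag (a : ℕ) (j : Fin n) :
    (gs γ a : (Fin n → ℕ) → ℂ) (Pi.single j a) = PowerSeries.coeff 1 (γ j) ^ a := by
  rw [gs_rec, lp.coeFn_sub, Pi.sub_apply, lamH_apply γ h0, lam_single γ h0 a a j le_rfl, if_pos rfl,
    lp.coeFn_sum, Finset.sum_apply, Finset.sum_eq_zero, sub_zero]
  intro i hi
  rw [Finset.mem_Iio] at hi
  rw [lp.coeFn_smul, Pi.smul_apply, span_coord γ i _ (fun b hb => ?_) _ (gs_mem γ i), smul_zero]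
  rw [lamH_apply γ h0, lam_single γ h0 b a j (by omega), if_neg (by omega)]

include h0 in
theorem gs_norm (a : ℕ) (j : Fin n) : ‖PowerSeries.coeff 1 (γ j)‖ ^ a ≤ ‖gs γ a‖ := by
  rw [← norm_pow, ← gs_diag γ h0 a j]
  exact lp.norm_apply_le_norm (by norm_num) _ _

theorem en_norm (a : ℕ) (h : gs γ a ≠ 0) : ‖en γ a‖ = 1 := by
  have h1 : ‖gs γ a‖ ≠ 0 := norm_ne_zero_iff.2 h
  rw [en, norm_smul, norm_inv, Complex.norm_real, norm_norm, inv_mul_cancel₀ h1]

theorem en_orth (a b : ℕ) (h : a ≠ b) : ⟪en γ a, en γ b⟫_ℂ = 0 := by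
  rw [en, en, inner_smul_left, inner_smul_right, gs, gs, gramSchmidt_orthogonal ℂ (lamH γ) h]
  simp

theorem inner_box (N : ℕ) (u w : HS n) (hu : ∀ α ∉ box n N, (u : (Fin n → ℕ) → ℂ) α = 0) :
    ⟪u, w⟫_ℂ = ∑ α ∈ box n N, (starRingEnd ℂ) ((u : (Fin n → ℕ) → ℂ) α) * (w : (Fin n → ℕ) → ℂ) α := by
  rw [lp.inner_eq_tsum, tsum_eq_sum (s := box n N)]
  · refine Finset.sum_congr rfl fun α _ => ?_
    rw [RCLike.inner_apply, mul_comm]
  · intro α hα
    rw [RCLike.inner_apply, hu α hα, map_zero, mul_zero]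

include h0 in
/-- orthonormality in coordinates -/
theorem en_sum (a b N : ℕ) (haN : a ≤ N) (h : ∀ i, gs γ i ≠ 0) :
    ∑ α ∈ box n N, (starRingEnd ℂ) ((en γ a : (Fin n → ℕ) → ℂ) α) * (en γ b : (Fin n → ℕ) → ℂ) α =
      if a = b then 1 else 0 := by
  rw [← inner_box N (en γ a) (en γ b) (fun α hα => en_box γ h0 a α fun h => hα (box_mono haN h))]
  split_ifs with hab
  · subst hab
    rw [inner_self_eq_norm_sq_to_K, en_norm γ a (h a)]
    simp
  · exact en_orth γ a b hab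

include h0 in
/-- the span is stable under the shifts -/
theorem exists_shift (a : ℕ) (j : Fin n) (u : HS n) (hu : u ∈ Submodule.span ℂ (lamH γ '' Set.Iic a)) :
    ∃ w ∈ Submodule.span ℂ (lamH γ '' Set.Iic a), ∀ β,
      (w : (Fin n → ℕ) → ℂ) β = (u : (Fin n → ℕ) → ℂ) (β + Pi.single j 1) := by
  induction hu using Submodule.span_induction with
  | mem x hx =>
    obtain ⟨b, hb, rfl⟩ := hx
    refine ⟨∑ p ∈ Finset.HasAntidiagonal.antidiagonal b, PowerSeries.coeff p.1 (γ j) • lamH γ p.2,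
      Submodule.sum_mem _ fun p hp => Submodule.smul_mem _ _ (Submodule.subset_span ⟨p.2, ?_, rfl⟩),
      fun β => ?_⟩
    · rw [Finset.HasAntidiagonal.mem_antidiagonal] at hp
      rw [Set.mem_Iic] at hb ⊢
      omega
    · rw [lamH_apply γ h0, lam_shift, lp.coeFn_sum, Finset.sum_apply]
      refine Finset.sum_congr rfl fun p _ => ?_
      rw [lp.coeFn_smul, Pi.smul_apply, lamH_apply γ h0, smul_eq_mul]
  | zero => exact ⟨0, Submodule.zero_mem _, fun β => by rw [lp.coeFn_zero]; rfl⟩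
  | add x y _ _ hx hy =>
    obtain ⟨w, hw, hw'⟩ := hx
    obtain ⟨w1, hw1, hw1'⟩ := hy
    exact ⟨w + w1, Submodule.add_mem _ hw hw1, fun β => by
      rw [lp.coeFn_add, lp.coeFn_add, Pi.add_apply, Pi.add_apply, hw', hw1']⟩
  | smul c x _ hx =>
    obtain ⟨w, hw, hw'⟩ := hx
    exact ⟨c • w, Submodule.smul_mem _ _ hw, fun β => by
      rw [lp.coeFn_smul, lp.coeFn_smul, Pi.smul_apply, Pi.smul_apply, hw']⟩

theorem span_en (a : ℕ) (h : ∀ i, gs γ i ≠ 0) :
    Submodule.span ℂ (lamH γ '' Set.Iic a) ≤ Submodule.span ℂ (en γ '' Set.Iic a) := by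
  have h1 := span_gramSchmidt_Iic ℂ (lamH γ) a
  rw [← h1, Submodule.span_le]
  rintro _ ⟨b, hb, rfl⟩
  have h2 : gramSchmidt ℂ (lamH γ) b = ((‖gs γ b‖ : ℝ) : ℂ) • en γ b := by
    rw [en, smul_smul, mul_inv_cancel₀, one_smul]
    · rfl
    · exact_mod_cast norm_ne_zero_iff.2 (h b)
  rw [SetLike.mem_coe, h2]
  exact Submodule.smul_mem _ _ (Submodule.subset_span ⟨b, hb, rfl⟩)

theorem expand (a : ℕ) (h : ∀ i, gs γ i ≠ 0) (w : HS n)
    (hw : w ∈ Submodule.span ℂ (en γ '' Set.Iic a)) :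
    w = ∑ b ∈ Finset.range (a + 1), ⟪en γ b, w⟫_ℂ • en γ b := by
  induction hw using Submodule.span_induction with
  | mem x hx =>
    obtain ⟨c, hc, rfl⟩ := hx
    rw [Set.mem_Iic] at hc
    rw [Finset.sum_eq_single c]
    · rw [inner_self_eq_norm_sq_to_K, en_norm γ c (h c)]
      simp
    · intro b _ hb
      rw [en_orth γ b c hb, zero_smul]
    · intro hc'
      exact absurd (Finset.mem_range.2 (by omega)) hc'
  | zero => simp
  | add x y _ _ hx hy =>
    have : ∑ b ∈ Finset.range (a + 1), ⟪en γ b, x + y⟫_ℂ • en γ b =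
      ∑ b ∈ Finset.range (a + 1), ⟪en γ b, x⟫_ℂ • en γ b +
        ∑ b ∈ Finset.range (a + 1), ⟪en γ b, y⟫_ℂ • en γ b := by
      rw [← Finset.sum_add_distrib]
      refine Finset.sum_congr rfl fun b _ => ?_
      rw [inner_add_right, add_smul]
    rw [this, ← hx, ← hy]
  | smul c x _ hx =>
    have : ∑ b ∈ Finset.range (a + 1), ⟪en γ b, c • x⟫_ℂ • en γ b =
      c • ∑ b ∈ Finset.range (a + 1), ⟪en γ b, x⟫_ℂ • en γ b := by
      rw [Finset.smul_sum]
      refine Finset.sum_congr rfl fun b _ => ?_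
      rw [inner_smul_right, mul_smul]
    rw [this, ← hx]

include h0 in
theorem en_shift (a : ℕ) (j : Fin n) (h : ∀ i, gs γ i ≠ 0) (β : Fin n → ℕ) :
    (en γ a : (Fin n → ℕ) → ℂ) (β + Pi.single j 1) = ∑ b ∈ Finset.range (a + 1),
      (∑ α ∈ box n a, (starRingEnd ℂ) ((en γ b : (Fin n → ℕ) → ℂ) α) *
        (en γ a : (Fin n → ℕ) → ℂ) (α + Pi.single j 1)) * (en γ b : (Fin n → ℕ) → ℂ) β := by
  obtain ⟨w, hw, hw'⟩ := exists_shift γ h0 a j (en γ a) (en_mem γ a)
  have h1 := expand γ a h w (span_en γ a h hw)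
  have h2 := congrArg (fun z : HS n => (z : (Fin n → ℕ) → ℂ) β) h1
  simp only at h2
  rw [hw', lp.coeFn_sum, Finset.sum_apply] at h2
  rw [h2]
  refine Finset.sum_congr rfl fun b hb => ?_
  rw [lp.coeFn_smul, Pi.smul_apply, smul_eq_mul]
  congr 1
  rw [Finset.mem_range] at hb
  rw [inner_box a (en γ b) w (fun α hα => en_box γ h0 b α fun h => hα (box_mono (by omega) h))]
  refine Finset.sum_congr rfl fun α _ => ?_
  rw [hw']

end one

end Pool.Agent.V7H43.KD
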