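import Mathlib
import Pool.Agent.V7H87.KD.StDefs
import Pool.Agent.V7H43.KD.Lam

/-!
# Sequences of formal curves: moderate and negligible sequences, limits
-/

set_option autoImplicit false

open Filter Topology InnerProductSpace

namespace Pool.Agent.V7H43.KD

open Pool.Agent.V7H87.KD

variable {n : ℕ}

section modneg

variable {x : ℕ → ℝ}

/-- moderate sequences -/
def Mod (x : ℕ → ℝ) (t : ℕ → ℂ) : Prop := ∃ (K : ℕ) (C : ℝ), ∀ m, ‖t m‖ ≤ C * (1 + (x m)⁻¹) ^ K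

/-- negligible sequences -/
def Neg (x : ℕ → ℝ) (t : ℕ → ℂ) : Prop :=
  ∀ K : ℕ, Tendsto (fun m => (1 + (x m)⁻¹) ^ K * ‖t m‖) atTop (𝓝 0)

theorem Neg.add (hx : ∀ m, 0 < x m) {s t : ℕ → ℂ} (hs : Neg x s) (ht : Neg x t) :
    Neg x (fun m => s m + t m) := by
  intro K
  refine squeeze_zero (fun m => ?_) (fun m => ?_) (by simpa using (hs K).add (ht K))
  · have := hx m
    positivity
  · rw [← mul_add]
    have := hx m
    exact mul_le_mul_of_nonneg_left (norm_add_le _ _) (by positivity)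

theorem Neg.zero : Neg x (fun _ => 0) := by
  intro K
  simp

theorem Neg.mul (hx : ∀ m, 0 < x m) {s t : ℕ → ℂ} (hs : Mod x s) (ht : Neg x t) :
    Neg x (fun m => s m * t m) := by
  obtain ⟨L, C, hC⟩ := hs
  intro K
  refine squeeze_zero (fun m => ?_) (fun m => ?_) (by simpa using (ht (K + L)).const_mul C)
  · have := hx m
    positivity
  · rw [norm_mul]
    have := hx m
    have h1 : 0 ≤ (1 + (x m)⁻¹) ^ K := by positivity
    calc (1 + (x m)⁻¹) ^ K * (‖s m‖ * ‖t m‖) ≤ (1 + (x m)⁻¹) ^ K *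
          ((C * (1 + (x m)⁻¹) ^ L) * ‖t m‖) := by
            exact mul_le_mul_of_nonneg_left (mul_le_mul_of_nonneg_right (hC m) (norm_nonneg _)) h1
      _ = _ := by rw [pow_add]; ring

theorem Neg.tendsto {t : ℕ → ℂ} (ht : Neg x t) : Tendsto t atTop (𝓝 0) := by
  have := ht 0
  simp only [pow_zero, one_mul] at this
  exact tendsto_zero_iff_norm_tendsto_zero.2 this

theorem Neg.congr {s t : ℕ → ℂ} (ht : Neg x t) (h : ∀ m, s m = t m) : Neg x s := by
  have : s = t := funext h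
  rwa [this]

theorem Mod.conj {t : ℕ → ℂ} (ht : Mod x t) : Mod x (fun m => (starRingEnd ℂ) (t m)) := by
  obtain ⟨K, C, h⟩ := ht
  exact ⟨K, C, fun m => by rw [RCLike.norm_conj]; exact h m⟩

end modneg

/-- the sesquilinear form with the coefficients `A` -/
noncomputable def EN (N : ℕ) (A : (Fin n → ℕ) → (Fin n → ℕ) → ℂ) (u w : (Fin n → ℕ) → ℂ) : ℂ :=
  ∑ α ∈ box n N, ∑ β ∈ box n N, A α β * u α * (starRingEnd ℂ) (w β)

theorem EN_add_left (N : ℕ) (A : (Fin n → ℕ) → (Fin n → ℕ) → ℂ) (u u' w : (Fin n → ℕ) → ℂ) :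
    EN N A (u + u') w = EN N A u w + EN N A u' w := by
  simp only [EN, Pi.add_apply, mul_add, add_mul, Finset.sum_add_distrib]

theorem EN_add_right (N : ℕ) (A : (Fin n → ℕ) → (Fin n → ℕ) → ℂ) (u w w' : (Fin n → ℕ) → ℂ) :
    EN N A u (w + w') = EN N A u w + EN N A u w' := by
  simp only [EN, Pi.add_apply, mul_add, map_add, Finset.sum_add_distrib]

theorem EN_smul_left (N : ℕ) (A : (Fin n → ℕ) → (Fin n → ℕ) → ℂ) (t : ℂ) (u w : (Fin n → ℕ) → ℂ) :
    EN N A (t • u) w = t * EN N A u w := by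
  simp only [EN, Pi.smul_apply, smul_eq_mul, Finset.mul_sum]
  refine Finset.sum_congr rfl fun α _ => Finset.sum_congr rfl fun β _ => ?_
  ring

theorem EN_smul_right (N : ℕ) (A : (Fin n → ℕ) → (Fin n → ℕ) → ℂ) (t : ℂ) (u w : (Fin n → ℕ) → ℂ) :
    EN N A u (t • w) = (starRingEnd ℂ) t * EN N A u w := by
  simp only [EN, Pi.smul_apply, smul_eq_mul, Finset.mul_sum, map_mul]
  refine Finset.sum_congr rfl fun α _ => Finset.sum_congr rfl fun β _ => ?_
  ring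

theorem EN_zero_left (N : ℕ) (A : (Fin n → ℕ) → (Fin n → ℕ) → ℂ) (w : (Fin n → ℕ) → ℂ) :
    EN N A 0 w = 0 := by
  simp [EN]

theorem EN_zero_right (N : ℕ) (A : (Fin n → ℕ) → (Fin n → ℕ) → ℂ) (u : (Fin n → ℕ) → ℂ) :
    EN N A u 0 = 0 := by
  simp [EN]

theorem pairing_eq (N : ℕ) (A : (Fin n → ℕ) → (Fin n → ℕ) → ℂ) (γ : Fin n → PowerSeries ℂ)
    (h0 : ∀ j, PowerSeries.constantCoeff (γ j) = 0) (a b : ℕ) (ha : a ≤ N) (hb : b ≤ N) :
    EN N A (lam γ a) (lam γ b) = pairing A γ a b := by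
  rw [EN, pairing]
  symm
  rw [Finset.sum_subset (box_mono ha)]
  · refine Finset.sum_congr rfl fun α _ => ?_
    rw [Finset.sum_subset (box_mono hb)]
    · rfl
    · intro β _ hβ
      have := lam_box γ h0 b β hβ
      rw [lam] at this
      rw [this, map_zero, mul_zero]
  · intro α _ hα
    refine Finset.sum_eq_zero fun β _ => ?_
    have := lam_box γ h0 a α hα
    rw [lam] at this
    rw [this, mul_zero, zero_mul]

/-- sequences of functionals which are combinations of the functionals of the curves with moderate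
coefficients -/
inductive TT (Γ : ℕ → Fin n → PowerSeries ℂ) (x : ℕ → ℝ) (N : ℕ) :
    (ℕ → (Fin n → ℕ) → ℂ) → Prop
  | base (b : ℕ) (hb : b ≤ N) : TT Γ x N (fun m => lam (Γ m) b)
  | zero : TT Γ x N (fun _ => 0)
  | add (u w : ℕ → (Fin n → ℕ) → ℂ) (hu : TT Γ x N u) (hw : TT Γ x N w) :
      TT Γ x N (fun m => u m + w m)
  | smul (t : ℕ → ℂ) (ht : Mod x t) (u : ℕ → (Fin n → ℕ) → ℂ) (hu : TT Γ x N u) :
      TT Γ x N (fun m => t m • u m)

theorem EN_neg {Γ : ℕ → Fin n → PowerSeries ℂ} {x : ℕ → ℝ} {N : ℕ} (hx : ∀ m, 0 < x m)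
    (A : ℕ → (Fin n → ℕ) → (Fin n → ℕ) → ℂ)
    (hbase : ∀ a ≤ N, ∀ b ≤ N, Neg x (fun m => EN N (A m) (lam (Γ m) a) (lam (Γ m) b)))
    {u w : ℕ → (Fin n → ℕ) → ℂ} (hu : TT Γ x N u) (hw : TT Γ x N w) :
    Neg x (fun m => EN N (A m) (u m) (w m)) := by
  induction hu with
  | base a ha =>
    induction hw with
    | base b hb => exact hbase a ha b hb
    | zero => exact Neg.zero.congr fun m => EN_zero_right _ _ _
    | add u w _ _ hu hw => exact (Neg.add hx hu hw).congr fun m => EN_add_right _ _ _ _ _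
    | smul t ht u _ hu => exact (Neg.mul hx ht.conj hu).congr fun m => EN_smul_right _ _ _ _ _
  | zero => exact Neg.zero.congr fun m => EN_zero_left _ _ _
  | add u w _ _ hu hw => exact (Neg.add hx hu hw).congr fun m => EN_add_left _ _ _ _ _
  | smul t ht u _ hu => exact (Neg.mul hx ht hu).congr fun m => EN_smul_left _ _ _ _ _

/-- bounded sequences of power series -/
def PB (φ : ℕ → PowerSeries ℂ) : Prop := ∀ i, ∃ B : ℝ, ∀ m, ‖PowerSeries.coeff i (φ m)‖ ≤ B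

theorem PB.one : PB (fun _ => 1) := fun i => ⟨‖PowerSeries.coeff i (1 : PowerSeries ℂ)‖, fun _ => le_rfl⟩

theorem PB.mul {φ ψ : ℕ → PowerSeries ℂ} (hφ : PB φ) (hψ : PB ψ) : PB (fun m => φ m * ψ m) := by
  choose B hB using hφ
  choose C hC using hψ
  intro i
  refine ⟨∑ p ∈ Finset.HasAntidiagonal.antidiagonal i, B p.1 * C p.2, fun m => ?_⟩
  rw [PowerSeries.coeff_mul]
  refine (norm_sum_le _ _).trans (Finset.sum_le_sum fun p _ => ?_)
  rw [norm_mul]
  exact mul_le_mul (hB _ m) (hC _ m) (norm_nonneg _) ((norm_nonneg _).trans (hB _ m))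

theorem PB.pow {φ : ℕ → PowerSeries ℂ} (hφ : PB φ) (k : ℕ) : PB (fun m => φ m ^ k) := by
  induction k with
  | zero => simpa using PB.one
  | succ k ih =>
    simp only [pow_succ]
    exact ih.mul hφ

theorem PB.prod {σ : Type*} (s : Finset σ) (φ : σ → ℕ → PowerSeries ℂ) (hφ : ∀ i, PB (φ i)) :
    PB (fun m => ∏ i ∈ s, φ i m) := by
  classical
  induction s using Finset.induction_on with
  | empty => simpa using PB.one
  | insert a s ha ih =>
    simp only [Finset.prod_insert ha]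
    exact (hφ a).mul ih

theorem lam_bdd (Γ : ℕ → Fin n → PowerSeries ℂ) (hΓ : ∀ j, PB fun m => Γ m j) (a : ℕ)
    (α : Fin n → ℕ) : ∃ B : ℝ, ∀ m, ‖lam (Γ m) a α‖ ≤ B :=
  PB.prod Finset.univ (fun j m => Γ m j ^ α j) (fun j => (hΓ j).pow (α j)) a

theorem norm_toH (N : ℕ) (u : (Fin n → ℕ) → ℂ) : ‖toH N u‖ ≤ ∑ α ∈ box n N, ‖u α‖ := by
  rw [toH]
  refine (norm_sum_le _ _).trans (Finset.sum_le_sum fun α _ => ?_)
  rw [lp.norm_single (by norm_num)]

theorem lamH_bdd (Γ : ℕ → Fin n → PowerSeries ℂ) (hΓ : ∀ j, PB fun m => Γ m j) (a : ℕ) :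
    ∃ B : ℝ, ∀ m, ‖lamH (Γ m) a‖ ≤ B := by
  choose B hB using lam_bdd Γ hΓ a
  exact ⟨∑ α ∈ box n a, B α, fun m => (norm_toH _ _).trans (Finset.sum_le_sum fun α _ => hB α m)⟩

section main

variable (Γ : ℕ → Fin n → PowerSeries ℂ) (x : ℕ → ℝ)
  (h0 : ∀ m j, PowerSeries.constantCoeff (Γ m j) = 0) (hx : ∀ m, 0 < x m)
  (hxj : ∀ m, ∃ j, ‖PowerSeries.coeff 1 (Γ m j)‖ = x m) (hΓ : ∀ j, PB fun m => Γ m j)

include h0 hxj in
theorem gs_lower (m a : ℕ) : x m ^ a ≤ ‖gs (Γ m) a‖ := by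
  obtain ⟨j, hj⟩ := hxj m
  rw [← hj]
  exact gs_norm (Γ m) (h0 m) a j

include h0 hxj hx in
theorem gs_ne (m a : ℕ) : gs (Γ m) a ≠ 0 := by
  have h1 := gs_lower Γ x h0 hxj m a
  have h2 := pow_pos (hx m) a
  exact norm_ne_zero_iff.1 (by linarith : 0 < ‖gs (Γ m) a‖).ne'

include h0 hxj hx in
theorem mod_inv (a : ℕ) (t : ℕ → ℂ) (B : ℝ) (ht : ∀ m, ‖t m‖ ≤ B / ‖gs (Γ m) a‖) (hB : 0 ≤ B) :
    Mod x t := by
  refine ⟨a, B, fun m => (ht m).trans ?_⟩
  rw [div_eq_mul_inv]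
  refine mul_le_mul_of_nonneg_left ?_ hB
  have h1 := gs_lower Γ x h0 hxj m a
  have h2 := pow_pos (hx m) a
  calc ‖gs (Γ m) a‖⁻¹ ≤ (x m ^ a)⁻¹ := inv_anti₀ h2 h1
    _ = ((x m)⁻¹) ^ a := (inv_pow _ _).symm
    _ ≤ _ := pow_le_pow_left₀ (inv_pos.2 (hx m)).le (by linarith) a

theorem TT.sum {Γ : ℕ → Fin n → PowerSeries ℂ} {x : ℕ → ℝ} {N : ℕ} (s : Finset ℕ)
    (u : ℕ → ℕ → (Fin n → ℕ) → ℂ) (hu : ∀ i ∈ s, TT Γ x N (u i)) :
    TT Γ x N (fun m => ∑ i ∈ s, u i m) := by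
  classical
  induction s using Finset.induction_on with
  | empty => simpa using TT.zero
  | insert a s ha ih =>
    simp only [Finset.sum_insert ha]
    exact TT.add _ _ (hu a (Finset.mem_insert_self _ _))
      (ih fun i hi => hu i (Finset.mem_insert_of_mem hi))

include h0 hxj hx hΓ in
theorem gs_TT (N a : ℕ) (ha : a ≤ N) : TT Γ x N (fun m => (gs (Γ m) a : (Fin n → ℕ) → ℂ)) := by
  induction a using Nat.strong_induction_on with
  | _ a ih =>
    obtain ⟨B, hB⟩ := lamH_bdd Γ hΓ a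
    have hB0 : 0 ≤ B := (norm_nonneg _).trans (hB 0)
    have h1 : (fun m => (gs (Γ m) a : (Fin n → ℕ) → ℂ)) = fun m => lam (Γ m) a +
        ∑ i ∈ Finset.Iio a, (fun i m => (-(⟪gs (Γ m) i, lamH (Γ m) a⟫_ℂ /
          (‖gs (Γ m) i‖ : ℂ) ^ 2)) • (gs (Γ m) i : (Fin n → ℕ) → ℂ)) i m := by
      funext m
      conv_lhs => rw [gs_rec]
      funext α
      rw [lp.coeFn_sub, Pi.sub_apply, lamH_apply (Γ m) (h0 m), lp.coeFn_sum, Finset.sum_apply,
        Pi.add_apply, sub_eq_add_neg, ← Finset.sum_neg_distrib, Finset.sum_apply]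
      congr 1
      refine Finset.sum_congr rfl fun i _ => ?_
      rw [lp.coeFn_smul, Pi.smul_apply]
      exact (neg_smul _ _).symm
    rw [h1]
    refine TT.add _ _ (TT.base a ha) (TT.sum _ _ fun i hi => ?_)
    rw [Finset.mem_Iio] at hi
    refine TT.smul _ ?_ _ (ih i hi (by omega))
    refine mod_inv Γ x h0 hx hxj i _ B (fun m => ?_) hB0
    have h3 : 0 < ‖gs (Γ m) i‖ := norm_pos_iff.2 (gs_ne Γ x h0 hx hxj m i)
    rw [norm_neg, norm_div, norm_pow, Complex.norm_real, norm_norm, div_le_div_iff₀ (by positivity) h3]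
    calc ‖⟪gs (Γ m) i, lamH (Γ m) a⟫_ℂ‖ * ‖gs (Γ m) i‖ ≤
          (‖gs (Γ m) i‖ * ‖lamH (Γ m) a‖) * ‖gs (Γ m) i‖ :=
            mul_le_mul_of_nonneg_right (norm_inner_le_norm _ _) h3.le
      _ ≤ (‖gs (Γ m) i‖ * B) * ‖gs (Γ m) i‖ :=
            mul_le_mul_of_nonneg_right (mul_le_mul_of_nonneg_left (hB m) h3.le) h3.le
      _ = _ := by ring

include h0 hxj hx hΓ in
theorem en_TT (N a : ℕ) (ha : a ≤ N) : TT Γ x N (fun m => (en (Γ m) a : (Fin n → ℕ) → ℂ)) := by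
  have h1 : (fun m => (en (Γ m) a : (Fin n → ℕ) → ℂ)) = fun m =>
      ((fun m => ((‖gs (Γ m) a‖ : ℝ) : ℂ)⁻¹) m) • (gs (Γ m) a : (Fin n → ℕ) → ℂ) := by
    funext m
    rw [en, lp.coeFn_smul]
  rw [h1]
  refine TT.smul _ ?_ _ (gs_TT Γ x h0 hx hxj hΓ N a ha)
  refine mod_inv Γ x h0 hx hxj a _ 1 (fun m => ?_) zero_le_one
  rw [norm_inv, Complex.norm_real, norm_norm, one_div]

include h0 hxj hx hΓ in
/-- the limits of the orthonormal systems -/
theorem exists_limit (A : ℕ → (Fin n → ℕ) → (Fin n → ℕ) → ℂ)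
    (A0 : (Fin n → ℕ) → (Fin n → ℕ) → ℂ)
    (hA : ∀ α β, Tendsto (fun m => A m α β) atTop (𝓝 (A0 α β)))
    (hneg : ∀ a b, Neg x (fun m => pairing (A m) (Γ m) a b)) :
    ∃ ε : ℕ → (Fin n → ℕ) → ℂ,
      (∀ a, ∀ α ∉ box n a, ε a α = 0) ∧
      (∀ a b N, a ≤ N → ∑ α ∈ box n N, (starRingEnd ℂ) (ε a α) * ε b α = if a = b then 1 else 0) ∧
      (∀ a j β, ε a (β + Pi.single j 1) = ∑ b ∈ Finset.range (a + 1),
        (∑ α ∈ box n a, (starRingEnd ℂ) (ε b α) * ε a (α + Pi.single j 1)) * ε b β) ∧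
      (∀ N a b, a ≤ N → b ≤ N → EN N A0 (ε a) (ε b) = 0) := by
  have hne := gs_ne Γ x h0 hx hxj
  let U : Ultrafilter ℕ := Ultrafilter.of atTop
  have hU : (U : Filter ℕ) ≤ atTop := Ultrafilter.of_le atTop
  have hlim : ∀ a α, ∃ z : ℂ, Tendsto (fun m => (en (Γ m) a : (Fin n → ℕ) → ℂ) α) U (𝓝 z) := by
    intro a α
    have hc : IsCompact (Metric.closedBall (0 : ℂ) 1) := isCompact_closedBall 0 1
    obtain ⟨z, -, hz⟩ := hc.ultrafilter_le_nhds
      (U.map fun m => (en (Γ m) a : (Fin n → ℕ) → ℂ) α) (by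
        rw [le_principal_iff]
        refine Filter.mem_map.2 (Filter.univ_mem' fun m => ?_)
        rw [Set.mem_preimage, mem_closedBall_zero_iff]
        refine (lp.norm_apply_le_norm (by norm_num) _ _).trans ?_
        rw [en_norm _ _ (hne m a)])
    exact ⟨z, hz⟩
  choose ε hε using hlim
  refine ⟨ε, ?_, ?_, ?_, ?_⟩
  · intro a α hα
    refine tendsto_nhds_unique (hε a α) ?_
    have : (fun m => (en (Γ m) a : (Fin n → ℕ) → ℂ) α) = fun _ => 0 :=
      funext fun m => en_box (Γ m) (h0 m) a α hα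
    rw [this]
    exact tendsto_const_nhds
  · intro a b N haN
    have h1 : Tendsto (fun m => ∑ α ∈ box n N, (starRingEnd ℂ) ((en (Γ m) a : (Fin n → ℕ) → ℂ) α) *
        (en (Γ m) b : (Fin n → ℕ) → ℂ) α) U
        (𝓝 (∑ α ∈ box n N, (starRingEnd ℂ) (ε a α) * ε b α)) :=
      tendsto_finsetSum _ fun α _ =>
        ((Complex.continuous_conj.tendsto _).comp (hε a α)).mul (hε b α)
    refine tendsto_nhds_unique h1 ?_
    have : (fun m => ∑ α ∈ box n N, (starRingEnd ℂ) ((en (Γ m) a : (Fin n → ℕ) → ℂ) α) *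
        (en (Γ m) b : (Fin n → ℕ) → ℂ) α) = fun _ => if a = b then 1 else 0 :=
      funext fun m => en_sum (Γ m) (h0 m) a b N haN (hne m)
    rw [this]
    exact tendsto_const_nhds
  · intro a j β
    refine tendsto_nhds_unique (hε a (β + Pi.single j 1)) ?_
    have h1 : Tendsto (fun m => ∑ b ∈ Finset.range (a + 1),
      (∑ α ∈ box n a, (starRingEnd ℂ) ((en (Γ m) b : (Fin n → ℕ) → ℂ) α) *
        (en (Γ m) a : (Fin n → ℕ) → ℂ) (α + Pi.single j 1)) * (en (Γ m) b : (Fin n → ℕ) → ℂ) β) U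
      (𝓝 (∑ b ∈ Finset.range (a + 1),
        (∑ α ∈ box n a, (starRingEnd ℂ) (ε b α) * ε a (α + Pi.single j 1)) * ε b β)) :=
      tendsto_finsetSum _ fun b _ => (tendsto_finsetSum _ fun α _ =>
        ((Complex.continuous_conj.tendsto _).comp (hε b α)).mul (hε a _)).mul (hε b β)
    refine h1.congr fun m => ?_
    exact (en_shift (Γ m) (h0 m) a j (hne m) β).symm
  · intro N a b ha hb
    have h1 : Tendsto (fun m => EN N (A m) (en (Γ m) a : (Fin n → ℕ) → ℂ)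
        (en (Γ m) b : (Fin n → ℕ) → ℂ)) U (𝓝 (EN N A0 (ε a) (ε b))) :=
      tendsto_finsetSum _ fun α _ => tendsto_finsetSum _ fun β _ =>
        (((hA α β).mono_left hU).mul (hε a α)).mul
          ((Complex.continuous_conj.tendsto _).comp (hε b β))
    refine tendsto_nhds_unique h1 ?_
    have h2 := EN_neg hx A (fun a ha b hb => (hneg a b).congr fun m =>
      pairing_eq N (A m) (Γ m) (h0 m) a b ha hb) (en_TT Γ x h0 hx hxj hΓ N a ha)
      (en_TT Γ x h0 hx hxj hΓ N b hb)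
    exact h2.tendsto.mono_left hU

end main

end Pool.Agent.V7H43.KD
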