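import Mathlib
import Pool.Agent.V7H87.KD.StDefs
import Pool.Agent.V7H43.KD.Arc
import Pool.Agent.V7H43.KD.Seq

/-!
# Specialisation of smooth formal curves to a formal curve at the limit point
-/

set_option autoImplicit false

open Filter Topology

namespace Pool.Agent.V7H43.KD

open Pool.Agent.V7H87.KD

variable {n : ℕ}

/-- the multi-index as a finitely supported function -/
noncomputable abbrev fs (α : Fin n → ℕ) : Fin n →₀ ℕ := Finsupp.equivFunOnFinite.symm α

theorem fs_add (α β : Fin n → ℕ) : fs (α + β) = fs α + fs β := by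
  ext i
  rfl

/-- the pairing of a power series with a finitely supported functional -/
noncomputable def LL (f : MvPowerSeries (Fin n) ℂ) : ((Fin n → ℕ) →₀ ℂ) →ₗ[ℂ] ℂ :=
  Finsupp.linearCombination ℂ fun α => MvPowerSeries.coeff (fs α) f

theorem LL_single (f : MvPowerSeries (Fin n) ℂ) (α : Fin n → ℕ) (c : ℂ) :
    LL f (Finsupp.single α c) = c * MvPowerSeries.coeff (fs α) f := by
  rw [LL, Finsupp.linearCombination_single, smul_eq_mul]

theorem LL_add (f g : MvPowerSeries (Fin n) ℂ) (u : (Fin n → ℕ) →₀ ℂ) :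
    LL (f + g) u = LL f u + LL g u := by
  have : LL (f + g) = LL f + LL g := by
    refine Finsupp.lhom_ext fun α c => ?_
    rw [LinearMap.add_apply, LL_single, LL_single, LL_single, map_add, mul_add]
  rw [this, LinearMap.add_apply]

theorem LL_smul (c : ℂ) (f : MvPowerSeries (Fin n) ℂ) (u : (Fin n → ℕ) →₀ ℂ) :
    LL (c • f) u = c * LL f u := by
  have : LL (c • f) = c • LL f := by
    refine Finsupp.lhom_ext fun α d => ?_
    rw [LinearMap.smul_apply, LL_single, LL_single, map_smul, smul_eq_mul, smul_eq_mul]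
    ring
  rw [this, LinearMap.smul_apply, smul_eq_mul]

theorem LL_zero (u : (Fin n → ℕ) →₀ ℂ) : LL (0 : MvPowerSeries (Fin n) ℂ) u = 0 := by
  have := LL_smul 0 (0 : MvPowerSeries (Fin n) ℂ) u
  rwa [zero_smul, zero_mul] at this

theorem add_single_inj (j : Fin n) :
    Function.Injective fun α : Fin n → ℕ => α + Pi.single j 1 := fun _ _ h =>
  add_right_cancel h

/-- the shift of a functional -/
noncomputable def shf (j : Fin n) : ((Fin n → ℕ) →₀ ℂ) →ₗ[ℂ] ((Fin n → ℕ) →₀ ℂ) :=
  Finsupp.lcomapDomain (fun α => α + Pi.single j 1) (add_single_inj j)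

theorem shf_apply (j : Fin n) (u : (Fin n → ℕ) →₀ ℂ) (α : Fin n → ℕ) :
    shf j u α = u (α + Pi.single j 1) := rfl

theorem LL_X_mul (j : Fin n) (f : MvPowerSeries (Fin n) ℂ) (u : (Fin n → ℕ) →₀ ℂ) :
    LL (MvPowerSeries.X j * f) u = LL f (shf j u) := by
  classical
  have : LL (MvPowerSeries.X j * f) = (LL f).comp (shf j) := by
    refine Finsupp.lhom_ext fun α c => ?_
    rw [LinearMap.comp_apply, LL_single]
    by_cases hα : ∃ β : Fin n → ℕ, α = β + Pi.single j 1
    · obtain ⟨β, rfl⟩ := hα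
      have h1 : shf j (Finsupp.single (β + Pi.single j 1) c) = Finsupp.single β c := by
        ext δ
        rw [shf_apply]
        by_cases h : β = δ
        · rw [h, Finsupp.single_eq_same, Finsupp.single_eq_same]
        · rw [Finsupp.single_eq_of_ne (Ne.symm h), Finsupp.single_eq_of_ne]
          intro h'
          exact h (add_right_cancel h').symm
      rw [h1, LL_single, add_comm β, fs_add]
      congr 1
      have h2 : fs (Pi.single j 1 : Fin n → ℕ) = Finsupp.single j 1 := by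
        ext i
        show (Pi.single j 1 : Fin n → ℕ) i = Finsupp.single j 1 i
        rw [Finsupp.single_eq_pi_single]
      rw [h2, MvPowerSeries.X_def, MvPowerSeries.coeff_add_monomial_mul, one_mul]
    · have h1 : shf j (Finsupp.single α c) = 0 := by
        ext δ
        rw [shf_apply, Finsupp.single_eq_of_ne, Finsupp.coe_zero, Pi.zero_apply]
        intro h
        exact hα ⟨δ, h.symm⟩
      rw [h1, map_zero]
      have h2 : α j = 0 := by
        by_contra h
        apply hα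
        refine ⟨fun i => if i = j then α i - 1 else α i, ?_⟩
        funext i
        rw [Pi.add_apply]
        by_cases hi : i = j
        · subst hi
          rw [if_pos rfl, Pi.single_eq_same]
          omega
        · rw [if_neg hi, Pi.single_eq_of_ne hi, add_zero]
      have h3 : MvPowerSeries.X j ∣ MvPowerSeries.X j * f := Dvd.intro _ rfl
      rw [MvPowerSeries.X_dvd_iff] at h3
      rw [h3 (fs α) h2, mul_zero]
  rw [this, LinearMap.comp_apply]

theorem LL_X_pow_mul (j : Fin n) (N : ℕ) (f : MvPowerSeries (Fin n) ℂ) (u : (Fin n → ℕ) →₀ ℂ)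
    (hu : ∀ α ∉ box n N, u α = 0) : LL (MvPowerSeries.X j ^ (N + 1) * f) u = 0 := by
  rw [LL, Finsupp.linearCombination_apply, Finsupp.sum]
  refine Finset.sum_eq_zero fun α hα => ?_
  rw [Finsupp.mem_support_iff] at hα
  have h1 : α ∈ box n N := by
    by_contra h
    exact hα (hu α h)
  rw [box, Fintype.mem_piFinset] at h1
  have h2 := h1 j
  rw [Finset.mem_range] at h2
  have h3 : MvPowerSeries.X j ^ (N + 1) ∣ MvPowerSeries.X j ^ (N + 1) * f := Dvd.intro _ rfl
  rw [MvPowerSeries.X_pow_dvd_iff] at h3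
  rw [h3 (fs α) h2, smul_zero]

theorem exists_box (u : (Fin n → ℕ) →₀ ℂ) : ∃ N, ∀ α ∉ box n N, u α = 0 := by
  classical
  refine ⟨u.support.sup fun α => ∑ j, α j, fun α hα => ?_⟩
  by_contra h
  apply hα
  rw [box, Fintype.mem_piFinset]
  intro j
  rw [Finset.mem_range, Nat.lt_succ_iff]
  have h1 : ∑ j, α j ≤ u.support.sup fun α => ∑ j, α j :=
    Finset.le_sup (f := fun α : Fin n → ℕ => ∑ j, α j) (Finsupp.mem_support_iff.2 h)
  refine le_trans ?_ h1
  exact Finset.single_le_sum (f := α) (fun _ _ => Nat.zero_le _) (Finset.mem_univ j)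

/-- truncation -/
theorem exists_trunc (N : ℕ) (g : MvPowerSeries (Fin n) ℂ) : ∃ h : Fin n → MvPowerSeries (Fin n) ℂ,
    g = (∑ α ∈ box n N, MvPowerSeries.coeff (fs α) g • ∏ j, MvPowerSeries.X j ^ α j) +
      ∑ j, MvPowerSeries.X j ^ (N + 1) * h j := by
  classical
  set P : MvPowerSeries (Fin n) ℂ := ∑ α ∈ box n N,
    MvPowerSeries.coeff (Finsupp.equivFunOnFinite.symm α) g • ∏ j, MvPowerSeries.X j ^ α j with hP
  have hmon : ∀ α : Fin n → ℕ, (∏ j, (MvPowerSeries.X j : MvPowerSeries (Fin n) ℂ) ^ α j) =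
      MvPowerSeries.monomial (Finsupp.equivFunOnFinite.symm α) (1 : ℂ) := by
    intro α
    rw [MvPowerSeries.monomial_eq', MvPowerSeries.C.map_one, one_mul]
    rw [Finsupp.prod_fintype _ _ (fun i => pow_zero _)]
    rfl
  have h1 : ∀ α ∈ box n N, MvPowerSeries.coeff (Finsupp.equivFunOnFinite.symm α) (g - P) = 0 := by
    intro α hα
    rw [map_sub, hP, map_sum, sub_eq_zero, Finset.sum_eq_single α]
    · rw [map_smul, hmon, MvPowerSeries.coeff_monomial_same, smul_eq_mul, mul_one]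
    · intro β' _ hne
      rw [map_smul, hmon, MvPowerSeries.coeff_monomial_ne, smul_zero]
      intro h
      exact hne (Finsupp.equivFunOnFinite.symm.injective h).symm
    · intro h
      exact absurd hα h
  obtain ⟨h, hh⟩ := sub_trunc N (g - P) h1
  exact ⟨h, by rw [← hh]; ring⟩

section ideal

variable (W : Submodule ℂ ((Fin n → ℕ) →₀ ℂ)) (hW : ∀ j, ∀ u ∈ W, shf j u ∈ W)

/-- the annihilator -/
noncomputable def annS : Submodule ℂ (MvPowerSeries (Fin n) ℂ) where
  carrier := {f | ∀ u ∈ W, LL f u = 0}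
  add_mem' := fun {f g} hf hg u hu => by rw [LL_add, hf u hu, hg u hu, add_zero]
  zero_mem' := fun u _ => LL_zero u
  smul_mem' := fun c f hf u hu => by rw [LL_smul, hf u hu, mul_zero]

theorem mem_annS (f : MvPowerSeries (Fin n) ℂ) : f ∈ annS W ↔ ∀ u ∈ W, LL f u = 0 := Iff.rfl

/-- the multiplications which preserve the annihilator -/
noncomputable def stab : Subalgebra ℂ (MvPowerSeries (Fin n) ℂ) where
  carrier := {g | ∀ f ∈ annS W, g * f ∈ annS W}
  mul_mem' := fun {g h} hg hh f hf => by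
    rw [mul_assoc]
    exact hg _ (hh f hf)
  add_mem' := fun {g h} hg hh f hf => by
    rw [add_mul]
    exact Submodule.add_mem _ (hg f hf) (hh f hf)
  algebraMap_mem' := fun c f hf => by
    rw [← Algebra.smul_def]
    exact Submodule.smul_mem _ c hf

include hW in
theorem X_mem_stab (j : Fin n) : (MvPowerSeries.X j : MvPowerSeries (Fin n) ℂ) ∈ stab W := by
  intro f hf u hu
  rw [LL_X_mul]
  exact hf _ (hW j u hu)

/-- the annihilator is an ideal -/
noncomputable def annI : Ideal (MvPowerSeries (Fin n) ℂ) where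
  carrier := {f | ∀ u ∈ W, LL f u = 0}
  add_mem' := fun {f g} hf hg u hu => by rw [LL_add, hf u hu, hg u hu, add_zero]
  zero_mem' := fun u _ => LL_zero u
  smul_mem' := fun g f hf u hu => by
    obtain ⟨N, hN⟩ := exists_box u
    obtain ⟨h, hh⟩ := exists_trunc N g
    have h1 : (∑ α ∈ box n N, MvPowerSeries.coeff (fs α) g •
        ∏ j, (MvPowerSeries.X j : MvPowerSeries (Fin n) ℂ) ^ α j) ∈ stab W :=
      Subalgebra.sum_mem _ fun α _ => Subalgebra.smul_mem _ (Subalgebra.prod_mem _ fun j _ =>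
        Subalgebra.pow_mem _ (X_mem_stab W hW j) _) _
    rw [smul_eq_mul, hh, add_mul, LL_add, h1 f hf u hu, zero_add, Finset.sum_mul]
    have h2 : ∀ s : Finset (Fin n), LL (∑ j ∈ s, MvPowerSeries.X j ^ (N + 1) * h j * f) u = 0 := by
      classical
      intro s
      induction s using Finset.induction_on with
      | empty => rw [Finset.sum_empty, LL_zero]
      | insert a s ha ih =>
        rw [Finset.sum_insert ha, LL_add, ih, add_zero, mul_assoc]
        exact LL_X_pow_mul a N _ u hN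
    exact h2 _

theorem mem_annI (f : MvPowerSeries (Fin n) ℂ) : f ∈ annI W hW ↔ ∀ u ∈ W, LL f u = 0 := Iff.rfl

/-- the double annihilator -/
theorem mem_of_annI (u : (Fin n → ℕ) →₀ ℂ) (hu : ∀ f ∈ annI W hW, LL f u = 0) : u ∈ W := by
  by_contra h
  obtain ⟨φ, hφ, hle⟩ := Submodule.exists_le_ker_of_notMem h
  let f : MvPowerSeries (Fin n) ℂ := fun m => φ (Finsupp.single (m : Fin n → ℕ) 1)
  have hf : ∀ α : Fin n → ℕ, MvPowerSeries.coeff (fs α) f = φ (Finsupp.single α 1) := fun α => rfl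
  have h1 : LL f = φ := by
    refine Finsupp.lhom_ext fun α c => ?_
    rw [LL_single, hf, ← smul_eq_mul, ← map_smul, Finsupp.smul_single, smul_eq_mul, mul_one]
  refine hφ ?_
  rw [← h1]
  refine hu f ?_
  intro w hw
  rw [h1]
  exact hle hw

theorem LL_monomial (α : Fin n → ℕ) (u : (Fin n → ℕ) →₀ ℂ) :
    LL (MvPowerSeries.monomial (fs α) (1 : ℂ)) u = u α := by
  classical
  have : LL (MvPowerSeries.monomial (fs α) (1 : ℂ)) = Finsupp.lapply α := by
    refine Finsupp.lhom_ext fun β c => ?_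
    rw [LL_single, Finsupp.lapply_apply, MvPowerSeries.coeff_monomial]
    by_cases h : β = α
    · rw [h, if_pos rfl, Finsupp.single_eq_same, mul_one]
    · rw [if_neg, Finsupp.single_eq_of_ne (Ne.symm h), mul_zero]
      intro h'
      exact h (Finsupp.equivFunOnFinite.symm.injective h')
  rw [this, Finsupp.lapply_apply]

theorem pow_le_annI (L : ℕ) (hL : IsLocalRing.maximalIdeal (MvPowerSeries (Fin n) ℂ) ^ L ≤ annI W hW)
    (u : (Fin n → ℕ) →₀ ℂ) (hu : u ∈ W) (α : Fin n → ℕ) (hα : α ∉ box n L) : u α = 0 := by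
  rw [← LL_monomial]
  refine hL ?_ u hu
  rw [box, Fintype.mem_piFinset] at hα
  push Not at hα
  obtain ⟨j, hj⟩ := hα
  rw [Finset.mem_range, not_lt] at hj
  have h1 : (MvPowerSeries.X j : MvPowerSeries (Fin n) ℂ) ^ (L + 1) ∣
      MvPowerSeries.monomial (fs α) (1 : ℂ) := by
    rw [MvPowerSeries.X_pow_dvd_iff]
    intro m hm
    rw [MvPowerSeries.coeff_monomial_ne]
    rintro rfl
    exact absurd hm (not_lt.2 hj)
  have h2 : (MvPowerSeries.X j : MvPowerSeries (Fin n) ℂ) ∈
      IsLocalRing.maximalIdeal (MvPowerSeries (Fin n) ℂ) := by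
    rw [Pool.Agent.Helper819.DC.COMP2.mem_max_mv_aux]
    exact MvPowerSeries.constantCoeff_X j
  exact Ideal.mem_of_dvd _ h1 (Ideal.pow_le_pow_right (Nat.le_succ L) (Ideal.pow_mem_pow h2 _))

end ideal

theorem not_orthonormal (L : ℕ) (ε : ℕ → (Fin n → ℕ) → ℂ)
    (h1 : ∀ a, ∀ α ∉ box n L, ε a α = 0)
    (h2 : ∀ a b N, a ≤ N → ∑ α ∈ box n N, (starRingEnd ℂ) (ε a α) * ε b α = if a = b then 1 else 0) :
    False := by
  classical
  let v : ℕ → EuclideanSpace ℂ (box n L) := fun a => WithLp.toLp 2 fun α => ε a α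
  have hv : Orthonormal ℂ v := by
    rw [orthonormal_iff_ite]
    intro a b
    rw [PiLp.inner_apply, ← h2 a b (max a L) (le_max_left _ _),
      ← Finset.sum_subset (box_mono (le_max_right a L))]
    · rw [← Finset.sum_coe_sort (box n L)]
      refine Finset.sum_congr rfl fun α _ => ?_
      rw [RCLike.inner_apply, mul_comm]
    · intro α _ hα
      rw [h1 b α hα, mul_zero]
  have h3 := hv.linearIndependent
  have := h3.finite
  exact not_finite ℕ

theorem specialise_aux (Γ : ℕ → Fin n → PowerSeries ℂ) (x : ℕ → ℝ)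
    (h0 : ∀ m j, PowerSeries.constantCoeff (Γ m j) = 0) (hx : ∀ m, 0 < x m)
    (hxj : ∀ m, ∃ j, ‖PowerSeries.coeff 1 (Γ m j)‖ = x m) (hΓ : ∀ j, PB fun m => Γ m j)
    (A : ℕ → (Fin n → ℕ) → (Fin n → ℕ) → ℂ)
    (A0 : (Fin n → ℕ) → (Fin n → ℕ) → ℂ)
    (hA : ∀ α β, Tendsto (fun m => A m α β) atTop (𝓝 (A0 α β)))
    (hneg : ∀ a b, Neg x (fun m => pairing (A m) (Γ m) a b)) :
    ∃ e : ℕ, ∀ M : ℕ, ∃ γ : Fin n → PowerSeries ℂ,
      (∀ j, PowerSeries.constantCoeff (γ j) = 0) ∧
      (∃ j, ∃ i ≤ e, PowerSeries.coeff i (γ j) ≠ 0) ∧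
      ∀ a < M, ∀ b < M, pairing A0 γ a b = 0 := by
  obtain ⟨ε, h1, h2, h3, h4⟩ := exists_limit Γ x h0 hx hxj hΓ A A0 hA hneg
  let E : ℕ → ((Fin n → ℕ) →₀ ℂ) := fun a => Finsupp.onFinset (box n a) (ε a) fun α hα => by
    by_contra h
    exact hα (h1 a α h)
  have hE : ∀ a α, E a α = ε a α := fun a α => rfl
  let W : Submodule ℂ ((Fin n → ℕ) →₀ ℂ) := Submodule.span ℂ (Set.range E)
  have hW : ∀ j, ∀ u ∈ W, shf j u ∈ W := by
    intro j u hu
    induction hu using Submodule.span_induction with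
    | mem x hx =>
      obtain ⟨a, rfl⟩ := hx
      have : shf j (E a) = ∑ b ∈ Finset.range (a + 1),
          (∑ α ∈ box n a, (starRingEnd ℂ) (ε b α) * ε a (α + Pi.single j 1)) • E b := by
        ext β
        rw [shf_apply, hE, h3, Finsupp.finsetSum_apply]
        rfl
      rw [this]
      exact Submodule.sum_mem _ fun b _ => Submodule.smul_mem _ _ (Submodule.subset_span ⟨b, rfl⟩)
    | zero => rw [map_zero]; exact Submodule.zero_mem _
    | add x y _ _ hx hy => rw [map_add]; exact Submodule.add_mem _ hx hy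
    | smul c x _ hx => rw [map_smul]; exact Submodule.smul_mem _ _ hx
  have hEW : ∀ a, E a ∈ W := fun a => Submodule.subset_span ⟨a, rfl⟩
  have hEN : ∀ u ∈ W, ∀ w ∈ W, ∃ N0, ∀ N ≥ N0, EN N A0 u w = 0 := by
    intro u hu w hw
    induction hu using Submodule.span_induction with
    | mem x hx =>
      obtain ⟨a, rfl⟩ := hx
      induction hw using Submodule.span_induction with
      | mem x hx =>
        obtain ⟨b, rfl⟩ := hx
        exact ⟨max a b, fun N hN => h4 N a b (le_trans (le_max_left _ _) hN)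
          (le_trans (le_max_right _ _) hN)⟩
      | zero => exact ⟨0, fun N _ => EN_zero_right _ _ _⟩
      | add x y _ _ hx hy =>
        obtain ⟨N1, hN1⟩ := hx
        obtain ⟨N2, hN2⟩ := hy
        refine ⟨max N1 N2, fun N hN => ?_⟩
        rw [Finsupp.coe_add, EN_add_right, hN1 N (le_trans (le_max_left _ _) hN),
          hN2 N (le_trans (le_max_right _ _) hN), add_zero]
      | smul c x _ hx =>
        obtain ⟨N1, hN1⟩ := hx
        refine ⟨N1, fun N hN => ?_⟩
        rw [Finsupp.coe_smul, EN_smul_right, hN1 N hN, mul_zero]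
    | zero => exact ⟨0, fun N _ => EN_zero_left _ _ _⟩
    | add x y _ _ hx hy =>
      obtain ⟨N1, hN1⟩ := hx
      obtain ⟨N2, hN2⟩ := hy
      refine ⟨max N1 N2, fun N hN => ?_⟩
      rw [Finsupp.coe_add, EN_add_left, hN1 N (le_trans (le_max_left _ _) hN),
        hN2 N (le_trans (le_max_right _ _) hN), add_zero]
    | smul c x _ hx =>
      obtain ⟨N1, hN1⟩ := hx
      refine ⟨N1, fun N hN => ?_⟩
      rw [Finsupp.coe_smul, EN_smul_left, hN1 N hN, mul_zero]
  obtain ⟨e, he⟩ := arcs (annI W hW) (by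
    intro L hL
    exact not_orthonormal L ε (fun a α hα => pow_le_annI W hW L hL (E a) (hEW a) α hα) h2)
  refine ⟨e, fun M => ?_⟩
  obtain ⟨γ, hγ0, hγ1, hγ2⟩ := he M
  refine ⟨γ, hγ0, hγ1, ?_⟩
  let G : ℕ → ((Fin n → ℕ) →₀ ℂ) := fun a => Finsupp.onFinset (box n a) (lam γ a) fun α hα => by
    by_contra h
    exact hα (lam_box γ hγ0 a α h)
  have hG : ∀ a < M, G a ∈ W := by
    intro a ha
    refine mem_of_annI W hW (G a) fun f hf => ?_
    have := hγ2 f hf a ha
    rw [LL, Finsupp.linearCombination_onFinset, ← this]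
    refine Finset.sum_congr rfl fun α _ => ?_
    rw [smul_eq_mul, mul_comm]
    rfl
  intro a ha b hb
  obtain ⟨N0, hN0⟩ := hEN (G a) (hG a ha) (G b) (hG b hb)
  rw [← pairing_eq (max N0 (max a b)) A0 γ hγ0 a b (by omega) (by omega)]
  exact hN0 _ (le_max_left _ _)

/-- SPEC: specialisation of smooth formal curves to a formal curve at the limit point. -/
theorem specialise {n : ℕ} (c : ℕ → ℕ → Fin n → ℂ) (A : ℕ → (Fin n → ℕ) → (Fin n → ℕ) → ℂ)
    (A0 : (Fin n → ℕ) → (Fin n → ℕ) → ℂ)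
    (hb : ∀ i, ∃ B : ℝ, ∀ m j, ‖c m i j‖ ≤ B)
    (hc : ∀ m, c m 1 ≠ 0)
    (hA : ∀ α β, Tendsto (fun m => A m α β) atTop (𝓝 (A0 α β)))
    (hE : ∀ a b K : ℕ, ∀ᶠ m in atTop,
      ‖pairing (A m) (fun j => PowerSeries.mk fun i => if i = 0 then 0 else c m i j) a b‖ ≤
        ‖c m 1‖ ^ K / (m + 1 : ℝ)) :
    ∃ e : ℕ, ∀ M : ℕ, ∃ γ : Fin n → PowerSeries ℂ,
      (∀ j, PowerSeries.constantCoeff (γ j) = 0) ∧
      (∃ j, ∃ i ≤ e, PowerSeries.coeff i (γ j) ≠ 0) ∧
      ∀ a < M, ∀ b < M, pairing A0 γ a b = 0 := by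
  have hpos : ∀ m, 0 < ‖c m 1‖ := fun m => norm_pos_iff.2 (hc m)
  refine specialise_aux (fun m j => PowerSeries.mk fun i => if i = 0 then 0 else c m i j)
    (fun m => ‖c m 1‖) (fun m j => ?_) hpos (fun m => ?_) (fun j i => ?_) A A0 hA (fun a b K => ?_)
  · rw [← PowerSeries.coeff_zero_eq_constantCoeff_apply, PowerSeries.coeff_mk, if_pos rfl]
  · have hn : Nonempty (Fin n) := by
      by_contra h
      rw [not_nonempty_iff] at h
      exact hc m (Subsingleton.elim _ _)
    obtain ⟨j, hj⟩ := Finite.exists_max fun j => ‖c m 1 j‖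
    refine ⟨j, ?_⟩
    rw [PowerSeries.coeff_mk, if_neg one_ne_zero]
    exact le_antisymm (norm_le_pi_norm _ j) ((pi_norm_le_iff_of_nonneg (norm_nonneg _)).2 hj)
  · obtain ⟨B, hB⟩ := hb i
    refine ⟨max B 0, fun m => ?_⟩
    rw [PowerSeries.coeff_mk]
    split_ifs
    · rw [norm_zero]; exact le_max_right _ _
    · exact (hB m j).trans (le_max_left _ _)
  · obtain ⟨B, hB⟩ := hb 1
    have hB' : ∀ m, ‖c m 1‖ ≤ max B 0 := fun m =>
      (pi_norm_le_iff_of_nonneg (le_max_right _ _)).2 fun j => (hB m j).trans (le_max_left _ _)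
    refine squeeze_zero' (g := fun m : ℕ => (max B 0 + 1) ^ K * (1 / ((m : ℝ) + 1)))
      (Eventually.of_forall fun m => ?_) ?_ ?_
    · have := hpos m
      positivity
    · filter_upwards [hE a b K] with m hm
      have h1 := hpos m
      calc (1 + ‖c m 1‖⁻¹) ^ K * ‖pairing (A m) (fun j => PowerSeries.mk fun i =>
              if i = 0 then 0 else c m i j) a b‖ ≤
            (1 + ‖c m 1‖⁻¹) ^ K * (‖c m 1‖ ^ K / (m + 1 : ℝ)) :=
              mul_le_mul_of_nonneg_left hm (by positivity)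
        _ = (‖c m 1‖ + 1) ^ K * (1 / ((m : ℝ) + 1)) := by
              rw [mul_div_assoc', ← mul_pow, add_mul, one_mul, inv_mul_cancel₀ h1.ne', div_eq_mul_one_div]
        _ ≤ _ := by
              refine mul_le_mul_of_nonneg_right ?_ (by positivity)
              exact pow_le_pow_left₀ (by positivity) (by linarith [hB' m]) K
    · have := (tendsto_one_div_add_atTop_nhds_zero_nat (𝕜 := ℝ)).const_mul ((max B 0 + 1) ^ K)
      simpa using this

end Pool.Agent.V7H43.KD
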