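import Mathlib
import Pool.Agent.V7H87.KD.Ring
import Pool.Agent.V7H87.KD.StDefs
import Pool.Agent.V7H43.KD.Lam

/-!
# Taylor expansion along polynomial curves
-/

set_option autoImplicit false

open Filter Topology Asymptotics
open scoped ContDiff ComplexConjugate

namespace Pool.Agent.V7H43.KD

open Pool.Agent.V7H87.KD

variable {n : ℕ}

/-- `w^α` -/
noncomputable def wp (w : Fin n → ℂ) (α : Fin n → ℕ) : ℂ := ∏ j, w j ^ α j

theorem wp_zero (w : Fin n → ℂ) : wp w 0 = 1 := by
  simp [wp]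

theorem wp_add_single (w : Fin n → ℂ) (j : Fin n) (α : Fin n → ℕ) :
    wp w (α + Pi.single j 1) = w j * wp w α := by
  classical
  rw [wp, wp, ← Finset.mul_prod_erase _ _ (Finset.mem_univ j),
    ← Finset.mul_prod_erase (a := j) _ _ (Finset.mem_univ j)]
  rw [Pi.add_apply, Pi.single_eq_same, pow_succ]
  have : ∏ x ∈ Finset.univ.erase j, w x ^ ((α + Pi.single j 1 : Fin n → ℕ) x) =
      ∏ x ∈ Finset.univ.erase j, w x ^ α x := by
    refine Finset.prod_congr rfl fun x hx => ?_
    rw [Pi.add_apply, Pi.single_eq_of_ne (Finset.ne_of_mem_erase hx), add_zero]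
  rw [this]
  ring

theorem norm_wp (w : Fin n → ℂ) (α : Fin n → ℕ) : ‖wp w α‖ ≤ ‖w‖ ^ ∑ j, α j := by
  rw [wp, norm_prod, ← Finset.prod_pow_eq_pow_sum]
  refine Finset.prod_le_prod (fun _ _ => norm_nonneg _) fun j _ => ?_
  rw [norm_pow]
  exact pow_le_pow_left₀ (norm_nonneg _) (norm_le_pi_norm w j) _

/-- the directional derivative by the Wirtinger derivatives -/
theorem dv_eq (w : Fin n → ℂ) (f : Rn n) :
    dv w f = ∑ j, w j • pd j f + ∑ j, (conj (w j)) • pdb j f := by
  classical
  ext y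
  rw [dv_apply, Subalgebra.coe_add, coe_sum', coe_sum', Pi.add_apply, Finset.sum_apply,
    Finset.sum_apply]
  simp only [Subalgebra.coe_smul, Pi.smul_apply, smul_eq_mul, pd_apply, pdb_apply]
  set L : (Fin n → ℂ) →L[ℝ] ℂ := fderiv ℝ (f : (Fin n → ℂ) → ℂ) y with hL
  have h1 : w = ∑ j, ((w j).re • (Pi.single j (1 : ℂ) : Fin n → ℂ) +
      (w j).im • (Pi.single j Complex.I : Fin n → ℂ)) := by
    funext k
    rw [Finset.sum_apply]
    simp only [Pi.add_apply, Pi.smul_apply]
    rw [Finset.sum_eq_single k]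
    · rw [Pi.single_eq_same, Pi.single_eq_same]
      apply Complex.ext <;> simp
    · intro b _ hb
      rw [Pi.single_eq_of_ne hb.symm, Pi.single_eq_of_ne hb.symm]
      simp
    · intro h
      exact absurd (Finset.mem_univ k) h
  conv_lhs => rw [h1]
  rw [map_sum, ← Finset.sum_add_distrib]
  refine Finset.sum_congr rfl fun j _ => ?_
  rw [map_add, map_smul, map_smul]
  set A := L (Pi.single j 1)
  set B := L (Pi.single j Complex.I)
  have h2 : w j = (w j).re + (w j).im * Complex.I := (Complex.re_add_im (w j)).symm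
  have h3 : conj (w j) = (w j).re - (w j).im * Complex.I := by
    conv_lhs => rw [h2]
    rw [map_add, map_mul, Complex.conj_I, Complex.conj_ofReal, Complex.conj_ofReal]
    ring
  rw [h3]
  rw [Complex.real_smul, Complex.real_smul]
  generalize (w j).re = p at *
  generalize (w j).im = q at *
  rw [h2]
  linear_combination (q * B : ℂ) * Complex.I_mul_I

/-- the iterated directional derivatives are polynomials in the direction -/
theorem iter_dv (f : Rn n) (m : ℕ) : ∃ (k : ℕ) (α β : Fin k → (Fin n → ℕ)) (b : Fin k → Rn n),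
    (∀ i, ∑ j, α i j + ∑ j, β i j = m) ∧
    ∀ w : Fin n → ℂ, (dv w)^[m] f = ∑ i, (wp w (α i) * conj (wp w (β i))) • b i := by
  classical
  suffices h : ∃ (ι : Type) (_ : Fintype ι) (α β : ι → (Fin n → ℕ)) (b : ι → Rn n),
      (∀ i, ∑ j, α i j + ∑ j, β i j = m) ∧
      ∀ w : Fin n → ℂ, (dv w)^[m] f = ∑ i, (wp w (α i) * conj (wp w (β i))) • b i by
    obtain ⟨ι, _, α, β, b, h1, h2⟩ := h
    let e := Fintype.equivFin ι
    refine ⟨Fintype.card ι, fun i => α (e.symm i), fun i => β (e.symm i), fun i => b (e.symm i),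
      fun i => h1 _, fun w => ?_⟩
    rw [h2 w]
    exact (Equiv.sum_comp e.symm (fun i => (wp w (α i) * conj (wp w (β i))) • b i)).symm
  induction m with
  | zero =>
    refine ⟨Unit, inferInstance, fun _ => 0, fun _ => 0, fun _ => f, fun _ => by simp, fun w => ?_⟩
    simp [wp_zero]
  | succ m ih =>
    obtain ⟨ι, _, α, β, b, h1, h2⟩ := ih
    refine ⟨(ι × Fin n) ⊕ (ι × Fin n), inferInstance,
      Sum.elim (fun p => α p.1 + Pi.single p.2 1) (fun p => α p.1),
      Sum.elim (fun p => β p.1) (fun p => β p.1 + Pi.single p.2 1),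
      Sum.elim (fun p => pd p.2 (b p.1)) (fun p => pdb p.2 (b p.1)), ?_, fun w => ?_⟩
    · rintro (⟨i, j⟩ | ⟨i, j⟩)
      · simp only [Sum.elim_inl, Pi.add_apply, Finset.sum_add_distrib]
        rw [Finset.sum_pi_single']
        simp only [Finset.mem_univ, if_true]
        have := h1 i
        omega
      · simp only [Sum.elim_inr, Pi.add_apply, Finset.sum_add_distrib]
        rw [Finset.sum_pi_single']
        simp only [Finset.mem_univ, if_true]
        have := h1 i
        omega
    · rw [Function.iterate_succ_apply', h2 w, map_sum, Fintype.sum_sum_type, Fintype.sum_prod_type,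
        Fintype.sum_prod_type, ← Finset.sum_add_distrib]
      refine Finset.sum_congr rfl fun i _ => ?_
      rw [Derivation.map_smul, dv_eq, smul_add, Finset.smul_sum, Finset.smul_sum]
      congr 1
      · refine Finset.sum_congr rfl fun j _ => ?_
        simp only [Sum.elim_inl]
        rw [wp_add_single, smul_smul]
        congr 1
        ring
      · refine Finset.sum_congr rfl fun j _ => ?_
        simp only [Sum.elim_inr]
        rw [wp_add_single, smul_smul, map_mul]
        congr 1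
        ring

/-- Taylor's formula with the crude bound for the remainder -/
theorem taylor_crude (N : ℕ) (G : ℕ → ℝ → ℂ) (hG : ∀ m s, HasDerivAt (G m) (G (m + 1) s) s) (C : ℝ)
    (hC : ∀ s ∈ Set.Icc (0 : ℝ) 1, ‖G N s‖ ≤ C) :
    ∀ x ∈ Set.Icc (0 : ℝ) 1,
      ‖G 0 x - ∑ m ∈ Finset.range N, ((x : ℂ) ^ m / (m.factorial : ℂ)) * G m 0‖ ≤ C := by
  induction N generalizing G with
  | zero =>
    intro x hx
    simpa using hC x hx
  | succ N ih =>
    intro x hx
    have hC0 : 0 ≤ C := (norm_nonneg _).trans (hC 0 ⟨le_rfl, zero_le_one⟩)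
    have h1 := ih (fun m => G (m + 1)) (fun m s => hG (m + 1) s) hC
    let h : ℝ → ℂ := fun x => G 0 x - ∑ m ∈ Finset.range (N + 1), ((x : ℂ) ^ m / (m.factorial : ℂ)) * G m 0
    have hd : ∀ s : ℝ, HasDerivAt h (G 1 s - ∑ m ∈ Finset.range N,
        ((s : ℂ) ^ m / (m.factorial : ℂ)) * G (m + 1) 0) s := by
      intro s
      refine (hG 0 s).sub ?_
      have h3 : ∀ m ∈ Finset.range (N + 1), HasDerivAt
          (fun x : ℝ => ((x : ℂ) ^ m / (m.factorial : ℂ)) * G m 0)
          ((((m : ℂ) * (s : ℂ) ^ (m - 1)) / (m.factorial : ℂ)) * G m 0) s := by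
        intro m _
        have h4 : HasDerivAt (fun x : ℝ => (x : ℂ)) 1 s := Complex.ofRealCLM.hasDerivAt
        have h5 := ((h4.pow m).div_const (m.factorial : ℂ)).mul_const (G m 0)
        simpa using h5
      have h4 := HasDerivAt.fun_sum h3
      convert h4 using 1
      rw [Finset.sum_range_succ']
      simp only [Nat.cast_zero, zero_mul, zero_div, add_zero]
      refine Finset.sum_congr rfl fun m _ => ?_
      congr 1
      rw [Nat.add_sub_cancel, Nat.factorial_succ]
      push_cast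
      have : ((m : ℂ) + 1) ≠ 0 := by exact_mod_cast Nat.succ_ne_zero m
      rw [mul_div_mul_left _ _ this]
    have h0 : h 0 = 0 := by
      simp only [h]
      rw [Finset.sum_range_succ']
      simp
    have h5 := (convex_Icc (0 : ℝ) 1).norm_image_sub_le_of_norm_hasDerivWithin_le
      (f := h) (C := C) (fun s _ => (hd s).hasDerivWithinAt) (fun s hs => h1 s hs)
      (⟨le_rfl, zero_le_one⟩ : (0 : ℝ) ∈ Set.Icc (0 : ℝ) 1) hx
    rw [h0, sub_zero, sub_zero] at h5
    refine h5.trans ?_
    rw [Real.norm_eq_abs, abs_of_nonneg hx.1]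
    nlinarith [hx.2]

theorem hasDerivAt_line (f : Rn n) (y w : Fin n → ℂ) (s : ℝ) :
    HasDerivAt (fun s : ℝ => (f : (Fin n → ℂ) → ℂ) (y + s • w))
      ((dv w f : (Fin n → ℂ) → ℂ) (y + s • w)) s := by
  have h1 : HasDerivAt (fun s : ℝ => y + s • w) w s := by
    have := ((hasDerivAt_id s).smul_const w).const_add y
    simpa using this
  have h2 := ((diff f) (y + s • w)).hasFDerivAt.comp_hasDerivAt s h1
  exact h2

/-- Taylor's formula in the ball -/
theorem taylor_ball (f : Rn n) (y : Fin n → ℂ) (N : ℕ) : ∃ C : ℝ, ∀ w : Fin n → ℂ, ‖w‖ ≤ 1 →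
    ‖(f : (Fin n → ℂ) → ℂ) (y + w) - ∑ m ∈ Finset.range N,
      (1 / (m.factorial : ℂ)) * (((dv w)^[m] f : Rn n) : (Fin n → ℂ) → ℂ) y‖ ≤ C * ‖w‖ ^ N := by
  obtain ⟨k, α, β, b, h1, h2⟩ := iter_dv f N
  have hbd : ∀ i, ∃ B : ℝ, 0 ≤ B ∧ ∀ z ∈ Metric.closedBall y 1, ‖(b i : (Fin n → ℂ) → ℂ) z‖ ≤ B := by
    intro i
    obtain ⟨B, hB⟩ := (isCompact_closedBall y 1).exists_bound_of_continuousOn (cont (b i)).continuousOn
    exact ⟨max B 0, le_max_right _ _, fun z hz => (hB z hz).trans (le_max_left _ _)⟩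
  choose B hB0 hB using hbd
  refine ⟨∑ i, B i, fun w hw => ?_⟩
  have h3 := taylor_crude N (fun m s => (((dv w)^[m] f : Rn n) : (Fin n → ℂ) → ℂ) (y + s • w))
    (fun m s => by
      have := hasDerivAt_line ((dv w)^[m] f) y w s
      rw [Function.iterate_succ_apply']
      exact this) ((∑ i, B i) * ‖w‖ ^ N) (fun s hs => ?_) 1 ⟨zero_le_one, le_rfl⟩
  · simp only [Function.iterate_zero, id_eq, one_smul, zero_smul, add_zero, Complex.ofReal_one,
      one_pow] at h3
    exact h3
  · rw [h2 w, coe_sum', Finset.sum_apply, Finset.sum_mul]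
    refine (norm_sum_le _ _).trans (Finset.sum_le_sum fun i _ => ?_)
    rw [Subalgebra.coe_smul, Pi.smul_apply, norm_smul, norm_mul, RCLike.norm_conj, mul_comm]
    refine mul_le_mul (hB i _ ?_) ?_ (by positivity) (hB0 i)
    · rw [Metric.mem_closedBall, dist_eq_norm, add_sub_cancel_left, norm_smul, Real.norm_eq_abs,
        abs_of_nonneg hs.1]
      calc s * ‖w‖ ≤ 1 * 1 := mul_le_mul hs.2 hw (norm_nonneg _) zero_le_one
        _ = 1 := one_mul 1
    · rw [← h1 i, pow_add]
      exact mul_le_mul (norm_wp w _) (norm_wp w _) (norm_nonneg _) (by positivity)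

end Pool.Agent.V7H43.KD
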