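import Mathlib
import Pool.Agent.V7H87.KD.Ring
import Pool.Agent.V7H87.KD.StDefs
import Pool.Agent.V7H43.KD.Lam
import Pool.Agent.V7H43.KD.Tay

/-!
# Taylor expansion along polynomial curves: the pairing
-/

set_option autoImplicit false

open Filter Topology Asymptotics
open scoped ContDiff ComplexConjugate

namespace Pool.Agent.V7H43.KD

open Pool.Agent.V7H87.KD

variable {n : ℕ}

theorem lam_lt (γ : Fin n → PowerSeries ℂ) (h0 : ∀ j, PowerSeries.constantCoeff (γ j) = 0) (a : ℕ)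
    (α : Fin n → ℕ) (h : a < ∑ j, α j) : PowerSeries.coeff a (mpow γ α) = 0 := by
  have h1 : (PowerSeries.X : PowerSeries ℂ) ^ (∑ j, α j) ∣ mpow γ α := by
    rw [← Finset.prod_pow_eq_pow_sum, mpow]
    exact Finset.prod_dvd_prod_of_dvd _ _ fun j _ => pow_dvd_pow_of_dvd
      (PowerSeries.X_dvd_iff.2 (h0 j)) _
  rw [PowerSeries.X_pow_dvd_iff] at h1
  exact h1 a h

theorem coeff_mpow (v : Fin n → Polynomial ℂ) (a : ℕ) (α : Fin n → ℕ) :
    PowerSeries.coeff a (mpow (fun j => (v j : PowerSeries ℂ)) α) = (∏ j, v j ^ α j).coeff a := by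
  have : mpow (fun j => (v j : PowerSeries ℂ)) α = ((∏ j, v j ^ α j : Polynomial ℂ) : PowerSeries ℂ) := by
    rw [mpow, ← Polynomial.coeToPowerSeries.ringHom_apply, map_prod]
    refine Finset.prod_congr rfl fun j _ => ?_
    rw [map_pow, Polynomial.coeToPowerSeries.ringHom_apply]
  rw [this, Polynomial.coeff_coe]

theorem eval_bigO (p : Polynomial ℂ) (hp : p.coeff 0 = 0) :
    (fun t : ℂ => p.eval t) =O[𝓝 0] fun t : ℂ => ‖t‖ := by
  have h1 : ∀ t : ℂ, p.eval t = t * p.divX.eval t := by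
    intro t
    conv_lhs => rw [← Polynomial.divX_mul_X_add p, hp]
    simp [mul_comm]
  have h2 : (fun t : ℂ => p.divX.eval t) =O[𝓝 0] fun _ : ℂ => (1 : ℝ) :=
    (p.divX.continuous.tendsto 0).isBigO_one ℝ
  have h3 : (fun t : ℂ => t) =O[𝓝 0] fun t : ℂ => ‖t‖ := (isBigO_refl _ _).norm_right
  simpa [h1] using h3.mul h2

theorem eval_bigO_pi (v : Fin n → Polynomial ℂ) (hv : ∀ j, (v j).coeff 0 = 0) :
    (fun t : ℂ => fun j => (v j).eval t) =O[𝓝 0] fun t : ℂ => ‖t‖ := by
  rw [isBigO_pi]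
  exact fun j => eval_bigO (v j) (hv j)

theorem term_bigO (c : ℂ) (a b N : ℕ) (h : N ≤ a + b) :
    (fun t : ℂ => c * t ^ a * (conj t) ^ b) =O[𝓝 0] fun t : ℂ => ‖t‖ ^ N := by
  refine IsBigO.of_bound ‖c‖ ?_
  filter_upwards [Metric.closedBall_mem_nhds (0 : ℂ) zero_lt_one] with t ht
  rw [mem_closedBall_zero_iff] at ht
  rw [norm_mul, norm_mul, norm_pow, norm_pow, RCLike.norm_conj, mul_assoc, ← pow_add, norm_pow,
    norm_norm]
  exact mul_le_mul_of_nonneg_left (pow_le_pow_of_le_one (norm_nonneg _) ht h) (norm_nonneg _)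

theorem sum_antidiag (D N : ℕ) (hD : N ≤ D) (f : ℕ × ℕ → ℂ) :
    ∑ m ∈ Finset.range N, ∑ ab ∈ Finset.HasAntidiagonal.antidiagonal m, f ab =
      ∑ ab ∈ (Finset.range D ×ˢ Finset.range D).filter (fun ab => ab.1 + ab.2 < N), f ab := by
  rw [← Finset.sum_fiberwise_of_maps_to (s := (Finset.range D ×ˢ Finset.range D).filter
    (fun ab => ab.1 + ab.2 < N)) (t := Finset.range N) (g := fun ab => ab.1 + ab.2)
    (fun ab hab => Finset.mem_range.2 (Finset.mem_filter.1 hab).2)]
  refine Finset.sum_congr rfl fun m hm => ?_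
  refine Finset.sum_congr ?_ fun _ _ => rfl
  rw [Finset.mem_range] at hm
  ext ab
  rw [Finset.HasAntidiagonal.mem_antidiagonal, Finset.mem_filter, Finset.mem_filter,
    Finset.mem_product, Finset.mem_range, Finset.mem_range]
  constructor
  · intro h
    refine ⟨⟨⟨?_, ?_⟩, ?_⟩, h⟩ <;> omega
  · exact fun h => h.2

/-- TAY -/
theorem taylor_pairing (r : Rn n) : ∃ A : (Fin n → ℕ) → (Fin n → ℕ) → Rn n,
    ∀ (y : Fin n → ℂ) (v : Fin n → Polynomial ℂ), (∀ j, (v j).coeff 0 = 0) → ∀ N : ℕ,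
      (fun t : ℂ => (r : (Fin n → ℂ) → ℂ) (fun j => y j + (v j).eval t) -
        ∑ m ∈ Finset.range N, ∑ ab ∈ Finset.HasAntidiagonal.antidiagonal m,
          pairing (fun α β => (A α β : (Fin n → ℂ) → ℂ) y) (fun j => (v j : PowerSeries ℂ)) ab.1 ab.2 *
            t ^ ab.1 * (conj t) ^ ab.2) =O[𝓝 0] fun t : ℂ => ‖t‖ ^ N := by
  classical
  choose k α β b h1 h2 using iter_dv r
  let A : (Fin n → ℕ) → (Fin n → ℕ) → Rn n := fun α' β' =>
    (1 / ((∑ j, α' j + ∑ j, β' j).factorial : ℂ)) •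
      ∑ i ∈ Finset.univ.filter (fun i => (α (∑ j, α' j + ∑ j, β' j) i,
        β (∑ j, α' j + ∑ j, β' j) i) = (α', β')), b (∑ j, α' j + ∑ j, β' j) i
  refine ⟨A, fun y v hv N => ?_⟩
  let S : ((Fin n → ℕ) × (Fin n → ℕ)) → ℕ := fun p => ∑ j, p.1 j + ∑ j, p.2 j
  let T : Finset ((Fin n → ℕ) × (Fin n → ℕ)) := (box n N ×ˢ box n N).filter fun p => S p < N
  have hle : ∀ (γ : Fin n → ℕ) (m : ℕ), ∑ j, γ j ≤ m → γ ∈ box n m := by
    intro γ m h
    rw [box, Fintype.mem_piFinset]
    intro j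
    rw [Finset.mem_range, Nat.lt_succ_iff]
    exact (Finset.single_le_sum (f := γ) (fun _ _ => Nat.zero_le _) (Finset.mem_univ j)).trans h
  -- the Taylor polynomial
  have hpoly : ∀ w : Fin n → ℂ, ∑ m ∈ Finset.range N,
      (1 / (m.factorial : ℂ)) * (((dv w)^[m] r : Rn n) : (Fin n → ℂ) → ℂ) y =
      ∑ p ∈ T, (A p.1 p.2 : (Fin n → ℂ) → ℂ) y * wp w p.1 * conj (wp w p.2) := by
    intro w
    rw [← Finset.sum_fiberwise_of_maps_to (s := T) (t := Finset.range N) (g := S)
      (fun p hp => Finset.mem_range.2 (Finset.mem_filter.1 hp).2)]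
    refine Finset.sum_congr rfl fun m hm => ?_
    rw [Finset.mem_range] at hm
    rw [h2 m w, coe_sum', Finset.sum_apply, Finset.mul_sum]
    rw [← Finset.sum_fiberwise_of_maps_to (s := Finset.univ) (t := T.filter fun p => S p = m)
      (g := fun i => (α m i, β m i)) (fun i _ => by
        have := h1 m i
        simp only [T, Finset.mem_filter, Finset.mem_product, S]
        refine ⟨⟨⟨hle _ _ ?_, hle _ _ ?_⟩, ?_⟩, ?_⟩ <;> omega)]
    refine Finset.sum_congr rfl fun p hp => ?_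
    have hpm : ∑ j, p.1 j + ∑ j, p.2 j = m := (Finset.mem_filter.1 hp).2
    simp only [A]
    rw [hpm, Subalgebra.coe_smul, Pi.smul_apply, coe_sum', Finset.sum_apply, smul_eq_mul,
      mul_assoc, mul_assoc, Finset.sum_mul, Finset.mul_sum]
    refine Finset.sum_congr rfl fun i hi => ?_
    have hi' := (Finset.mem_filter.1 hi).2
    have hi1 : α m i = p.1 := congrArg Prod.fst hi'
    have hi2 : β m i = p.2 := congrArg Prod.snd hi'
    rw [Subalgebra.coe_smul, Pi.smul_apply, smul_eq_mul, hi1, hi2]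
    ring
  have hv0 : ∀ j, PowerSeries.constantCoeff (v j : PowerSeries ℂ) = 0 := by
    intro j
    rw [← PowerSeries.coeff_zero_eq_constantCoeff_apply, Polynomial.coeff_coe, hv j]
  let q : (Fin n → ℕ) → Polynomial ℂ := fun α => ∏ j, v j ^ α j
  have hwp : ∀ (t : ℂ) (α : Fin n → ℕ), wp (fun j => (v j).eval t) α = (q α).eval t := by
    intro t α
    simp only [wp, q, Polynomial.eval_prod, Polynomial.eval_pow]
  let D : ℕ := N + (box n N).sup (fun α => (q α).natDegree) + 1
  have hD : ∀ α ∈ box n N, (q α).natDegree < D := by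
    intro α hα
    have h9 : (q α).natDegree ≤ (box n N).sup (fun α => (q α).natDegree) :=
      Finset.le_sup (f := fun α => (q α).natDegree) hα
    simp only [D]
    omega
  let g : ℕ → ℕ → ((Fin n → ℕ) × (Fin n → ℕ)) → ℂ := fun a b p =>
    (A p.1 p.2 : (Fin n → ℂ) → ℂ) y * (q p.1).coeff a * conj ((q p.2).coeff b)
  let c : ℕ → ℕ → ℂ := fun a b => ∑ p ∈ T, g a b p
  have hc : ∀ a b, a + b < N → c a b = pairing (fun α β => (A α β : (Fin n → ℂ) → ℂ) y)
      (fun j => (v j : PowerSeries ℂ)) a b := by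
    intro a b hab
    rw [pairing]
    rw [← Finset.sum_product' (f := fun α β => (A α β : (Fin n → ℂ) → ℂ) y *
      PowerSeries.coeff a (mpow (fun j => (v j : PowerSeries ℂ)) α) *
      conj (PowerSeries.coeff b (mpow (fun j => (v j : PowerSeries ℂ)) β)))]
    refine Finset.sum_congr_of_eq_on_inter ?_ ?_ ?_
    · intro p hp hp'
      rw [Finset.mem_product, not_and_or] at hp'
      simp only [g, q]
      rcases hp' with h | h
      · rw [← coeff_mpow]
        have := lam_box _ hv0 a p.1 h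
        rw [lam] at this
        rw [this, mul_zero, zero_mul]
      · rw [← coeff_mpow v b]
        have := lam_box _ hv0 b p.2 h
        rw [lam] at this
        rw [this, map_zero, mul_zero]
    · intro p hp hp'
      rw [Finset.mem_product] at hp
      have h3 : ¬ (S p < N) := by
        intro h3
        exact hp' (Finset.mem_filter.2 ⟨Finset.mem_product.2
          ⟨box_mono (by omega) hp.1, box_mono (by omega) hp.2⟩, h3⟩)
      simp only [S] at h3
      by_cases h4 : a < ∑ j, p.1 j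
      · rw [lam_lt _ hv0 a p.1 h4, mul_zero, zero_mul]
      · rw [lam_lt _ hv0 b p.2 (by omega), map_zero, mul_zero]
    · intro p _ _
      simp only [g, q]
      rw [coeff_mpow, coeff_mpow]
  have hsum : ∀ t : ℂ, ∑ p ∈ T, (A p.1 p.2 : (Fin n → ℂ) → ℂ) y *
      wp (fun j => (v j).eval t) p.1 * conj (wp (fun j => (v j).eval t) p.2) =
      ∑ ab ∈ Finset.range D ×ˢ Finset.range D, c ab.1 ab.2 * t ^ ab.1 * (conj t) ^ ab.2 := by
    intro t
    have h5 : ∀ p ∈ T, (A p.1 p.2 : (Fin n → ℂ) → ℂ) y *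
      wp (fun j => (v j).eval t) p.1 * conj (wp (fun j => (v j).eval t) p.2) =
      ∑ ab ∈ Finset.range D ×ˢ Finset.range D, g ab.1 ab.2 p * t ^ ab.1 * (conj t) ^ ab.2 := by
      intro p hp
      have hp' := Finset.mem_product.1 (Finset.mem_filter.1 hp).1
      rw [hwp, hwp, Polynomial.eval_eq_sum_range' (hD _ hp'.1),
        Polynomial.eval_eq_sum_range' (hD _ hp'.2), map_sum, mul_assoc, Finset.sum_mul_sum,
        Finset.mul_sum, Finset.sum_product]
      refine Finset.sum_congr rfl fun a _ => ?_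
      rw [Finset.mul_sum]
      refine Finset.sum_congr rfl fun b _ => ?_
      simp only [g, map_mul, map_pow]
      ring
    rw [Finset.sum_congr rfl h5, Finset.sum_comm]
    refine Finset.sum_congr rfl fun ab _ => ?_
    simp only [c]
    rw [Finset.sum_mul, Finset.sum_mul]
  -- the estimate
  have hw := eval_bigO_pi v hv
  obtain ⟨C, hC⟩ := taylor_ball r y N
  have hrem : (fun t : ℂ => (r : (Fin n → ℂ) → ℂ) (fun j => y j + (v j).eval t) -
      ∑ p ∈ T, (A p.1 p.2 : (Fin n → ℂ) → ℂ) y *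
      wp (fun j => (v j).eval t) p.1 * conj (wp (fun j => (v j).eval t) p.2)) =O[𝓝 0]
      fun t : ℂ => ‖t‖ ^ N := by
    have h6 : (fun t : ℂ => (r : (Fin n → ℂ) → ℂ) (fun j => y j + (v j).eval t) -
      ∑ p ∈ T, (A p.1 p.2 : (Fin n → ℂ) → ℂ) y *
      wp (fun j => (v j).eval t) p.1 * conj (wp (fun j => (v j).eval t) p.2)) =O[𝓝 0]
      fun t : ℂ => ‖fun j => (v j).eval t‖ ^ N := by
      refine IsBigO.of_bound C ?_
      have h7 : Tendsto (fun t : ℂ => fun j => (v j).eval t) (𝓝 0) (𝓝 0) := by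
        refine hw.trans_tendsto ?_
        have := (continuous_norm (E := ℂ)).tendsto 0
        rwa [norm_zero] at this
      filter_upwards [h7 (Metric.closedBall_mem_nhds 0 zero_lt_one)] with t ht
      rw [Set.mem_preimage, mem_closedBall_zero_iff] at ht
      rw [norm_pow, norm_norm, ← hpoly]
      exact hC _ ht
    exact h6.trans (hw.norm_left.pow N)
  have hrest : (fun t : ℂ => ∑ ab ∈ (Finset.range D ×ˢ Finset.range D).filter
      (fun ab => ¬ (ab.1 + ab.2 < N)), c ab.1 ab.2 * t ^ ab.1 * (conj t) ^ ab.2) =O[𝓝 0]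
      fun t : ℂ => ‖t‖ ^ N := by
    refine IsBigO.fun_sum fun ab hab => term_bigO _ _ _ _ ?_
    exact not_lt.1 (Finset.mem_filter.1 hab).2
  refine (hrem.add hrest).congr_left fun t => ?_
  rw [hsum t, ← Finset.sum_filter_add_sum_filter_not (Finset.range D ×ˢ Finset.range D)
    (fun ab => ab.1 + ab.2 < N), sum_antidiag D N (by simp only [D]; omega)]
  have h8 : ∑ ab ∈ (Finset.range D ×ˢ Finset.range D).filter (fun ab => ab.1 + ab.2 < N),
      c ab.1 ab.2 * t ^ ab.1 * (conj t) ^ ab.2 =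
      ∑ ab ∈ (Finset.range D ×ˢ Finset.range D).filter (fun ab => ab.1 + ab.2 < N),
      pairing (fun α β => (A α β : (Fin n → ℂ) → ℂ) y) (fun j => (v j : PowerSeries ℂ)) ab.1 ab.2 *
        t ^ ab.1 * (conj t) ^ ab.2 := by
    refine Finset.sum_congr rfl fun ab hab => ?_
    rw [hc _ _ (Finset.mem_filter.1 hab).2]
  rw [h8]
  ring

end Pool.Agent.V7H43.KD
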