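import Mathlib
import Pool.Agent.V7H87.KD.Ring
import Pool.Agent.V7H87.KD.StDefs
import Pool.Agent.V7H43.KD.Lam
import Pool.Agent.V7H43.KD.Tay
import Pool.Agent.V7H43.KD.Tay2

/-!
# Uniqueness of the coefficients, and formal curves of high contact
-/

set_option autoImplicit false

open Filter Topology Asymptotics
open scoped ContDiff ComplexConjugate

namespace Pool.Agent.V7H43.KD

open Pool.Agent.V7H87.KD

variable {n : ℕ}

/-- a polynomial of degree `< N` in a real variable which is `O(ρ^N)` is zero -/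
theorem real_unique (N : ℕ) (d : ℕ → ℂ)
    (h : (fun ρ : ℝ => ∑ m ∈ Finset.range N, (ρ : ℂ) ^ m * d m) =O[𝓝[≠] 0] fun ρ : ℝ => ρ ^ N) :
    ∀ m < N, d m = 0 := by
  induction N generalizing d with
  | zero => intro m hm; omega
  | succ N ih =>
    have h0 : d 0 = 0 := by
      have h1 : Tendsto (fun ρ : ℝ => ∑ m ∈ Finset.range (N + 1), (ρ : ℂ) ^ m * d m) (𝓝[≠] 0) (𝓝 0) := by
        refine h.trans_tendsto ?_
        have : Tendsto (fun ρ : ℝ => ρ ^ (N + 1)) (𝓝 0) (𝓝 (0 ^ (N + 1))) :=
          (continuous_pow (N + 1)).tendsto 0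
        rw [zero_pow (Nat.succ_ne_zero N)] at this
        exact this.mono_left nhdsWithin_le_nhds
      have h2 : Tendsto (fun ρ : ℝ => ∑ m ∈ Finset.range (N + 1), (ρ : ℂ) ^ m * d m) (𝓝[≠] 0)
          (𝓝 (∑ m ∈ Finset.range (N + 1), ((0 : ℝ) : ℂ) ^ m * d m)) := by
        have : Continuous (fun ρ : ℝ => ∑ m ∈ Finset.range (N + 1), (ρ : ℂ) ^ m * d m) := by fun_prop
        exact (this.tendsto 0).mono_left nhdsWithin_le_nhds
      have h3 := tendsto_nhds_unique h2 h1
      rw [Finset.sum_range_succ'] at h3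
      simpa using h3
    have h4 : (fun ρ : ℝ => ∑ m ∈ Finset.range N, (ρ : ℂ) ^ m * d (m + 1)) =O[𝓝[≠] 0]
        fun ρ : ℝ => ρ ^ N := by
      have h5 : (fun ρ : ℝ => (ρ : ℂ)⁻¹ * ∑ m ∈ Finset.range (N + 1), (ρ : ℂ) ^ m * d m) =O[𝓝[≠] 0]
          fun ρ : ℝ => ρ⁻¹ * ρ ^ (N + 1) := by
        refine IsBigO.mul ?_ h
        refine IsBigO.of_bound 1 (Eventually.of_forall fun ρ => ?_)
        rw [one_mul, norm_inv, norm_inv, Complex.norm_real]
      refine (h5.congr' ?_ ?_)
      · filter_upwards [self_mem_nhdsWithin] with ρ hρ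
        have hρ' : (ρ : ℂ) ≠ 0 := by exact_mod_cast hρ
        rw [Finset.sum_range_succ', h0, mul_zero, add_zero, Finset.mul_sum]
        refine Finset.sum_congr rfl fun m _ => ?_
        field_simp
        ring
      · filter_upwards [self_mem_nhdsWithin] with ρ hρ
        have hρ' : ρ ≠ 0 := hρ
        field_simp
        ring
    have h6 := ih (fun m => d (m + 1)) h4
    intro m hm
    rcases m with _ | m
    · exact h0
    · exact h6 m (by omega)

/-- a homogeneous polynomial in `z, z̄` which vanishes identically is zero -/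
theorem hom_unique (m : ℕ) (c : ℕ → ℕ → ℂ)
    (h : ∀ z : ℂ, ∑ ab ∈ Finset.HasAntidiagonal.antidiagonal m, c ab.1 ab.2 * z ^ ab.1 * (conj z) ^ ab.2 = 0) :
    ∀ a b, a + b = m → c a b = 0 := by
  let Q : Polynomial ℂ := ∑ ab ∈ Finset.HasAntidiagonal.antidiagonal m,
    Polynomial.monomial ab.1 (c ab.1 ab.2)
  have hcoef : ∀ a b, a + b = m → Q.coeff a = c a b := by
    intro a b hab
    simp only [Q]
    rw [Polynomial.finsetSum_coeff, Finset.sum_eq_single (a, b)]
    · rw [Polynomial.coeff_monomial, if_pos rfl]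
    · rintro ⟨a', b'⟩ h' hne
      rw [Finset.HasAntidiagonal.mem_antidiagonal] at h'
      rw [Polynomial.coeff_monomial, if_neg]
      intro h''
      simp only at h' h''
      apply hne
      rw [Prod.mk.injEq]
      omega
    · intro h'
      exact absurd (Finset.HasAntidiagonal.mem_antidiagonal.2 hab) h'
  have hQ : Q = 0 := by
    refine Polynomial.eq_zero_of_infinite_isRoot Q ?_
    have hne : ∀ x : ℝ, (1 - x * Complex.I : ℂ) ≠ 0 := by
      intro x hx
      have := congrArg Complex.re hx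
      simp at this
    have hinj : Function.Injective fun x : ℝ => ((1 + x * Complex.I) / (1 - x * Complex.I) : ℂ) := by
      intro x y hxy
      simp only at hxy
      rw [div_eq_div_iff (hne x) (hne y)] at hxy
      have h1 : (2 * Complex.I) * ((x : ℂ) - y) = 0 := by linear_combination hxy
      rcases mul_eq_zero.1 h1 with h2 | h2
      · simp at h2
      · have : (x : ℂ) = y := sub_eq_zero.1 h2
        exact_mod_cast this
    refine (Set.infinite_range_of_injective hinj).mono ?_
    rintro _ ⟨x, rfl⟩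
    simp only [Set.mem_ofPred_eq, Polynomial.IsRoot.def]
    have h2 := h (1 + x * Complex.I)
    have hconj : conj (1 + x * Complex.I : ℂ) = 1 - x * Complex.I := by
      rw [map_add, map_one, map_mul, Complex.conj_ofReal, Complex.conj_I]
      ring
    rw [hconj] at h2
    have h3 : (1 - x * Complex.I : ℂ) ^ m *
        Q.eval ((1 + x * Complex.I) / (1 - x * Complex.I) : ℂ) = 0 := by
      rw [← h2]
      simp only [Q]
      rw [Polynomial.eval_finsetSum, Finset.mul_sum]
      refine Finset.sum_congr rfl fun ab hab => ?_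
      rw [Finset.HasAntidiagonal.mem_antidiagonal] at hab
      rw [Polynomial.eval_monomial, ← hab, pow_add, div_pow]
      have h4 : (1 - x * Complex.I : ℂ) ^ ab.1 ≠ 0 := pow_ne_zero _ (hne x)
      field_simp
    rcases mul_eq_zero.1 h3 with h5 | h5
    · exact absurd h5 (pow_ne_zero _ (hne x))
    · exact h5
  intro a b hab
  rw [← hcoef a b hab, hQ, Polynomial.coeff_zero]

/-- UNI: uniqueness of the coefficients -/
theorem coeff_unique (N : ℕ) (c : ℕ → ℕ → ℂ)
    (h : (fun t : ℂ => ∑ m ∈ Finset.range N, ∑ ab ∈ Finset.HasAntidiagonal.antidiagonal m,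
      c ab.1 ab.2 * t ^ ab.1 * (conj t) ^ ab.2) =O[𝓝 0] fun t : ℂ => ‖t‖ ^ N) :
    ∀ a b, a + b < N → c a b = 0 := by
  intro a b hab
  refine hom_unique (a + b) c (fun z => ?_) a b rfl
  let d : ℕ → ℂ := fun m => ∑ ab ∈ Finset.HasAntidiagonal.antidiagonal m,
    c ab.1 ab.2 * z ^ ab.1 * (conj z) ^ ab.2
  refine real_unique N d ?_ (a + b) hab
  have h1 : Tendsto (fun ρ : ℝ => (ρ : ℂ) * z) (𝓝[≠] 0) (𝓝 0) := by
    have : Continuous fun ρ : ℝ => (ρ : ℂ) * z := by fun_prop
    have h2 := this.tendsto 0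
    simp only [Complex.ofReal_zero, zero_mul] at h2
    exact h2.mono_left nhdsWithin_le_nhds
  have h2 := h.comp_tendsto h1
  have h3 : (fun ρ : ℝ => ‖(ρ : ℂ) * z‖ ^ N) =O[𝓝[≠] 0] fun ρ : ℝ => ρ ^ N := by
    refine IsBigO.of_bound (‖z‖ ^ N) (Eventually.of_forall fun ρ => ?_)
    rw [norm_pow, norm_norm, norm_mul, Complex.norm_real, norm_pow, mul_pow, mul_comm]
  refine (h2.trans h3).congr_left fun ρ => ?_
  simp only [Function.comp_apply, d]
  refine Finset.sum_congr rfl fun m _ => ?_
  rw [Finset.mul_sum]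
  refine Finset.sum_congr rfl fun ab hab => ?_
  rw [Finset.HasAntidiagonal.mem_antidiagonal] at hab
  rw [map_mul, Complex.conj_ofReal, mul_pow, mul_pow, ← hab, pow_add]
  ring

/-- equality of the lower coefficients -/
def EqTo (k : ℕ) (φ ψ : PowerSeries ℂ) : Prop := ∀ i ≤ k, PowerSeries.coeff i φ = PowerSeries.coeff i ψ

theorem EqTo.mul {k : ℕ} {φ ψ φ' ψ' : PowerSeries ℂ} (h : EqTo k φ ψ) (h' : EqTo k φ' ψ') :
    EqTo k (φ * φ') (ψ * ψ') := by
  intro i hi
  rw [PowerSeries.coeff_mul, PowerSeries.coeff_mul]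
  refine Finset.sum_congr rfl fun p hp => ?_
  rw [Finset.HasAntidiagonal.mem_antidiagonal] at hp
  rw [h p.1 (by omega), h' p.2 (by omega)]

theorem EqTo.refl {k : ℕ} (φ : PowerSeries ℂ) : EqTo k φ φ := fun _ _ => rfl

theorem EqTo.pow {k : ℕ} {φ ψ : PowerSeries ℂ} (h : EqTo k φ ψ) (m : ℕ) : EqTo k (φ ^ m) (ψ ^ m) := by
  induction m with
  | zero => rw [pow_zero, pow_zero]; exact EqTo.refl _
  | succ m ih => rw [pow_succ, pow_succ]; exact ih.mul h

theorem EqTo.prod {k : ℕ} {σ : Type*} (s : Finset σ) {φ ψ : σ → PowerSeries ℂ}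
    (h : ∀ i, EqTo k (φ i) (ψ i)) : EqTo k (∏ i ∈ s, φ i) (∏ i ∈ s, ψ i) := by
  classical
  induction s using Finset.induction_on with
  | empty => simpa using EqTo.refl _
  | insert a s ha ih =>
    rw [Finset.prod_insert ha, Finset.prod_insert ha]
    exact (h a).mul ih

/-- CON: `pairing` only depends on the lower coefficients -/
theorem pairing_congr (A : (Fin n → ℕ) → (Fin n → ℕ) → ℂ) (γ γ' : Fin n → PowerSeries ℂ) (a b : ℕ)
    (h : ∀ j, ∀ i ≤ max a b, PowerSeries.coeff i (γ j) = PowerSeries.coeff i (γ' j)) :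
    pairing A γ a b = pairing A γ' a b := by
  have h1 : ∀ α : Fin n → ℕ, EqTo (max a b) (mpow γ α) (mpow γ' α) := fun α =>
    EqTo.prod _ fun j => EqTo.pow (h j) (α j)
  rw [pairing, pairing]
  refine Finset.sum_congr rfl fun α _ => Finset.sum_congr rfl fun β _ => ?_
  rw [h1 α a (le_max_left _ _), h1 β b (le_max_right _ _)]

/-- a polynomial which is `O(t^N)` has no terms of degree `< N` -/
theorem poly_unique (p : Polynomial ℂ) (N : ℕ)
    (h : (fun t : ℂ => p.eval t) =O[𝓝 0] fun t : ℂ => ‖t‖ ^ N) : ∀ i < N, p.coeff i = 0 := by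
  intro i hi
  have h0 := coeff_unique N (fun a b => if b = 0 then p.coeff a else 0) ?_ i 0 (by omega)
  · simpa using h0
  · have h1 : ∀ t : ℂ, ∑ m ∈ Finset.range N, ∑ ab ∈ Finset.HasAntidiagonal.antidiagonal m,
        (fun a b => if b = 0 then p.coeff a else 0) ab.1 ab.2 * t ^ ab.1 * (conj t) ^ ab.2 =
        ∑ m ∈ Finset.range N, p.coeff m * t ^ m := by
      intro t
      refine Finset.sum_congr rfl fun m _ => ?_
      rw [Finset.sum_eq_single (m, 0)]
      · simp
      · rintro ⟨a, b⟩ hab hne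
        rw [Finset.HasAntidiagonal.mem_antidiagonal] at hab
        have hb : b ≠ 0 := by
          rintro rfl
          apply hne
          simp only [add_zero] at hab
          rw [hab]
        simp [hb]
      · intro h'
        exact absurd (Finset.HasAntidiagonal.mem_antidiagonal.2 (add_zero m)) h'
    have h2 : ∀ t : ℂ, ∑ m ∈ Finset.range N, p.coeff m * t ^ m =
        p.eval t - ∑ m ∈ Finset.Ico N (N + p.natDegree + 1), p.coeff m * t ^ m := by
      intro t
      rw [Polynomial.eval_eq_sum_range' (show p.natDegree < N + p.natDegree + 1 by omega),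
        ← Finset.sum_range_add_sum_Ico _ (show N ≤ N + p.natDegree + 1 by omega)]
      ring
    have h3 : (fun t : ℂ => ∑ m ∈ Finset.Ico N (N + p.natDegree + 1), p.coeff m * t ^ m) =O[𝓝 0]
        fun t : ℂ => ‖t‖ ^ N := by
      refine IsBigO.fun_sum fun m hm => ?_
      have := term_bigO (p.coeff m) m 0 N (by rw [Finset.mem_Ico] at hm; omega)
      simpa using this
    refine (h.sub h3).congr_left fun t => ?_
    rw [h1, h2]

/-- FIN: formal curves of bounded order with arbitrarily high contact give infinite type -/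
theorem dAngelo_top (r : (Fin n → ℂ) → ℝ) (x : Fin n → ℂ) (A0 : (Fin n → ℕ) → (Fin n → ℕ) → ℂ)
    (hA : ∀ v : Fin n → Polynomial ℂ, (∀ j, (v j).coeff 0 = 0) → ∀ N : ℕ,
      (fun t : ℂ => (r (fun j => x j + (v j).eval t) : ℂ) -
        ∑ m ∈ Finset.range N, ∑ ab ∈ Finset.HasAntidiagonal.antidiagonal m,
          pairing A0 (fun j => (v j : PowerSeries ℂ)) ab.1 ab.2 *
            t ^ ab.1 * (conj t) ^ ab.2) =O[𝓝 0] fun t : ℂ => ‖t‖ ^ N)
    (e : ℕ) (h : ∀ M : ℕ, ∃ γ : Fin n → PowerSeries ℂ,
      (∀ j, PowerSeries.constantCoeff (γ j) = 0) ∧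
      (∃ j, ∃ i ≤ e, PowerSeries.coeff i (γ j) ≠ 0) ∧
      ∀ a < M, ∀ b < M, pairing A0 γ a b = 0) :
    dAngeloType r x = ⊤ := by
  have key : ∀ M : ℕ, (M : ENNReal) / (e : ENNReal) ≤ dAngeloType r x := by
    intro M
    obtain ⟨γ, h0, ⟨j, i, hi, hji⟩, hM⟩ := h M
    let p : Fin n → Polynomial ℂ := fun j => PowerSeries.trunc (M + e + 1) (γ j)
    have hp : ∀ j, ∀ i < M + e + 1, (p j).coeff i = PowerSeries.coeff i (γ j) := by
      intro j i hi
      simp only [p]
      rw [PowerSeries.coeff_trunc, if_pos hi]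
    have hp0 : ∀ j, (p j).coeff 0 = 0 := by
      intro j
      rw [hp j 0 (by omega), PowerSeries.coeff_zero_eq_constantCoeff_apply, h0]
    let c : ℂ → Fin n → ℂ := fun t j => x j + (p j).eval t
    have hc0 : c 0 = x := by
      funext j
      simp only [c]
      rw [← Polynomial.coeff_zero_eq_eval_zero, hp0, add_zero]
    have hsub : ∀ t, (fun t => c t - x) t = fun j => (p j).eval t := by
      intro t
      funext j
      simp only [c, Pi.sub_apply]
      ring
    have hord : ∀ N : ℕ, (fun t => c t - x) =O[𝓝 0] (fun t : ℂ => ‖t‖ ^ N) → N ≤ e := by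
      intro N hN
      by_contra hcon
      have h1 : (fun t : ℂ => (p j).eval t) =O[𝓝 0] fun t : ℂ => ‖t‖ ^ N := by
        rw [isBigO_pi] at hN
        refine (hN j).congr_left fun t => ?_
        show x j + (p j).eval t - x j = (p j).eval t
        ring
      have h2 := poly_unique (p j) N h1 i (by omega)
      rw [hp j i (by omega)] at h2
      exact hji h2
    have hana : AnalyticAt ℂ c 0 := by
      rw [analyticAt_pi_iff]
      intro j
      exact analyticAt_const.add ((Polynomial.differentiable (p j)).analyticAt 0)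
    have hnc : ¬ ∀ᶠ t in 𝓝 0, c t = x := by
      intro hev
      have h1 : (fun t => c t - x) =O[𝓝 0] (fun t : ℂ => ‖t‖ ^ (e + 1)) := by
        refine IsBigO.of_bound 0 ?_
        filter_upwards [hev] with t ht
        rw [ht, sub_self, norm_zero, zero_mul]
      have := hord _ h1
      omega
    have hcontact : (fun t => r (c t)) =O[𝓝 0] (fun t : ℂ => ‖t‖ ^ M) := by
      have h1 := hA p hp0 M
      have h2 : (fun t : ℂ => (r (fun j => x j + (p j).eval t) : ℂ)) =O[𝓝 0]
          fun t : ℂ => ‖t‖ ^ M := by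
        refine h1.congr_left fun t => ?_
        rw [sub_eq_self]
        refine Finset.sum_eq_zero fun m hm => Finset.sum_eq_zero fun ab hab => ?_
        rw [Finset.mem_range] at hm
        rw [Finset.HasAntidiagonal.mem_antidiagonal] at hab
        rw [pairing_congr A0 (fun j => (p j : PowerSeries ℂ)) γ ab.1 ab.2 (fun j i hi => by
          rw [Polynomial.coeff_coe, hp j i (by omega)]), hM _ (by omega) _ (by omega)]
        ring
      refine IsBigO.congr_left (f₁ := fun t => r (c t)) ?_ fun t => rfl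
      exact IsBigO.of_norm_left (by
        refine h2.norm_left.congr_left fun t => ?_
        rw [Complex.norm_real])
    have h1 : ((M : ℕ∞) : ENNReal) ≤ (vord (fun t => r (c t)) : ENNReal) := by
      rw [ENat.toENNReal_le]
      exact le_iSup₂_of_le M hcontact le_rfl
    have h2 : (vord (fun t => c t - x) : ENNReal) ≤ ((e : ℕ∞) : ENNReal) := by
      rw [ENat.toENNReal_le]
      refine iSup₂_le fun N hN => ?_
      exact_mod_cast hord N hN
    rw [ENat.toENNReal_coe] at h1 h2
    refine (ENNReal.div_le_div h1 h2).trans ?_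
    rw [dAngeloType]
    exact le_iSup₂_of_le c ⟨hana, hc0, hnc⟩ le_rfl
  have he : (e : ENNReal) ≠ ⊤ := ENNReal.natCast_ne_top e
  by_contra hne
  obtain ⟨M, hM⟩ := ENNReal.exists_nat_gt (ENNReal.mul_ne_top hne he)
  have h1 := key M
  by_cases he0 : (e : ENNReal) = 0
  · rw [he0, mul_zero] at hM
    rw [he0, ENNReal.div_zero hM.ne'] at h1
    exact hne (top_le_iff.1 h1)
  · rw [ENNReal.div_le_iff he0 he] at h1
    exact absurd hM (not_lt.2 h1)

end Pool.Agent.V7H43.KD
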